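import Mathlib
import Pool.Agent.P8H82.WS.Stm

set_option autoImplicit false

/-!
# Project FF (row `MP_c59389_nt`): ALL elliptic curves over `K = ℚ(√5)` with full two-torsion (all
twists), ordered by the conductor; the limit law of the stable height. First list of packages.

These packages extend those of project JG (`Pool/Agent/P8H82/JG/Stm.lean`) from the local conditions
`Cnd P e` to conditions `CX T P n`, where at the primes `P` of a finite set `T` the exact valuation of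
`a b (a + b)` is prescribed. The proofs of JG can be copied: `P8H86/JG/Loc.lean` (`loc`),
`P8H52/JG/Asz.lean` (`asz`), `P8H60/JG/Asy.lean` (`asy`), `P8H60/JG/CZero.lean` (`c0_thm`),
`P8H56/JG/Pts.lean` (`pts`), `P8H82/JG/Fin.lean`.
-/

namespace Pool.Agent.P8H82.FF

open NumberField IsDedekindDomain MeasureTheory Filter Topology
open Pool.Agent.P8H82.JG (Gold Triple Rep rad dens Cnd dl nP ord c0 emb Reg KK Jor shp S_LP S_LOC
  S_TL S_SM S_C0 S_BETA S_KKJ S_NRM S_CONE)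
open Pool.Agent.P8H82.WS (lamT jL S_LAM)

variable {K : Type} [Field K] [NumberField K]

/-- the valuation of `a b (a + b)` at `P` is exactly `n`, and `(a, b)` is coprime at `P` -/
def Ex (P : HeightOneSpectrum (𝓞 K)) (n : ℕ) (a b : 𝓞 K) : Prop :=
  ¬ (a ∈ P.asIdeal ∧ b ∈ P.asIdeal) ∧ a * b * (a + b) ∈ P.asIdeal ^ n ∧
    a * b * (a + b) ∉ P.asIdeal ^ (n + 1)

/-- its density -/
noncomputable def dx (q : ℝ) (n : ℕ) : ℝ :=
  if n = 0 then (1 - 1 / q) * (1 - 2 / q) else 3 * (1 - 1 / q) ^ 2 / q ^ n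

/-- the local condition at `P`: exact valuation for `P ∈ T`, as in JG for `P ∉ T` -/
def CX (T : Finset (HeightOneSpectrum (𝓞 K))) (P : HeightOneSpectrum (𝓞 K)) (n : ℕ)
    (a b : 𝓞 K) : Prop :=
  (P ∈ T → Ex P n a b) ∧ (P ∉ T → Cnd P n a b)

/-- its density -/
noncomputable def dX (T : Finset (HeightOneSpectrum (𝓞 K))) (P : HeightOneSpectrum (𝓞 K))
    (n : ℕ) : ℝ :=
  open Classical in if P ∈ T then dx (nP P) n else dl (nP P) n

/-- the density of all the conditions for the ideal `w` -/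
noncomputable def dn (T : Finset (HeightOneSpectrum (𝓞 K))) (w : Ideal (𝓞 K)) : ℝ :=
  c0 K * ∏ᶠ (P : HeightOneSpectrum (𝓞 K)) (_ : P ∈ T ∨ w ≤ P.asIdeal),
    (dX T P (ord P w) / dl (nP P) 0)

/-- package LOCX (from LOC): `Ex P (e + 1)` is `Cnd P e` for `e ≥ 1`, and `Cnd P 0` is `Ex P 0 ∨ Ex P 1`
(exclusive); the new count is `n = 0`: `(q - 1) (q - 2)` pairs modulo `P`; lift to `P ^ (n + 2)` -/
def S_LOCX : Prop := ∀ (K : Type) [Field K] [NumberField K] (P : HeightOneSpectrum (𝓞 K)) (n : ℕ),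
  (({x : (𝓞 K ⧸ P.asIdeal ^ (n + 2)) × (𝓞 K ⧸ P.asIdeal ^ (n + 2)) | ∃ a b : 𝓞 K,
    x = (Ideal.Quotient.mk _ a, Ideal.Quotient.mk _ b) ∧ Ex P n a b}.ncard : ℕ) : ℝ) =
    dx (nP P) n * (nP P ^ (n + 2)) ^ 2

/-- package ASZX (from LP, LOC, LOCX; literally the proof of `P8H52/JG/Asz.lean`, the condition
depends on `(a, b)` modulo `P ^ (n + 2)` only) -/
def S_ASZX : Prop := ∀ (K : Type) [Field K] [NumberField K] (σ τ : K →+* ℝ), Gold K σ τ →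
  ∀ (T : Finset (HeightOneSpectrum (𝓞 K))) (ν : HeightOneSpectrum (𝓞 K) → ℕ)
    (Z : Finset (HeightOneSpectrum (𝓞 K))) (D : Set (ℝ × ℝ × ℝ × ℝ)), Jor volume D →
  Tendsto (fun l : ℝ => (({q : 𝓞 K × 𝓞 K | (∀ P ∈ Z, CX T P (ν P) q.1 q.2) ∧
    emb σ τ l q.1 q.2 ∈ D}.ncard : ℕ) : ℝ) / l ^ 4) atTop
    (𝓝 ((volume D).toReal / 5 * ∏ P ∈ Z, dX T P (ν P)))

/-- package DENX (from C0): only finitely many factors differ from those of `c0` -/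
def S_DENX : Prop := ∀ (K : Type) [Field K] [NumberField K]
  (T : Finset (HeightOneSpectrum (𝓞 K))) (w : Ideal (𝓞 K)), w ≠ ⊥ →
  HasProd (fun P : HeightOneSpectrum (𝓞 K) => dX T P (ord P w)) (dn T w) ∧ 0 ≤ dn T w

/-- package ASYX (from ASZX, TL, SM, DENX; the proof of `P8H60/JG/Asy.lean` with `Z ⊇ T`) -/
def S_ASYX : Prop := ∀ (K : Type) [Field K] [NumberField K] (σ τ : K →+* ℝ), Gold K σ τ →
  ∀ (T : Finset (HeightOneSpectrum (𝓞 K))) (w : Ideal (𝓞 K)) (D : Set (ℝ × ℝ × ℝ × ℝ)), w ≠ ⊥ →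
  Jor volume D →
  Tendsto (fun l : ℝ => (({q : 𝓞 K × 𝓞 K | q.1 * q.2 * (q.1 + q.2) ≠ 0 ∧
    (∀ P, CX T P (ord P w) q.1 q.2) ∧ emb σ τ l q.1 q.2 ∈ D}.ncard : ℕ) : ℝ) / l ^ 4) atTop
    (𝓝 ((volume D).toReal / 5 * dn T w))

/-- package GPTS (from NRM, CONE, LAM; the proof of `P8H56/JG/Pts.lean`): from the parameters
`l = lamT t` (the classes of the triples up to units, by LAM) to the pairs `(a, b)` with `b` in the
fundamental cone; the factor `2` is the unit `-1`. `|N(a b c)| ≤ Z` is the last condition in `Reg Q` for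
the pair scaled by `Z ^ (1/6)`, as `N = |σ τ|` and `c = - (a + b)` -/
def S_GPTS : Prop := ∀ (K : Type) [Field K] [NumberField K] (σ τ : K →+* ℝ), Gold K σ τ →
  ∀ Φ : 𝓞 K → 𝓞 K → Prop, (∀ (u : (𝓞 K)ˣ) (a b : 𝓞 K), Φ a b → Φ (u * a) (u * b)) →
  (∀ a b : 𝓞 K, Φ a b → Ideal.span {a, b} = (⊤ : Ideal (𝓞 K))) →
  ∀ (Z : ℝ) (Q : Set (ℝ × ℝ)), 1 ≤ Z →
  2 * (({l : K | ∃ t : 𝓞 K × 𝓞 K × 𝓞 K, Triple t ∧ lamT t = l ∧ Φ t.1 t.2.1 ∧
      (Ideal.absNorm (Ideal.span {t.1 * t.2.1 * t.2.2}) : ℝ) ≤ Z ∧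
      shp σ τ t ∈ Q}.ncard : ℕ) : ℝ) =
    (({q : 𝓞 K × 𝓞 K | q.1 * q.2 * (q.1 + q.2) ≠ 0 ∧ Φ q.1 q.2 ∧
      emb σ τ (Z ^ ((1 : ℝ) / 6)) q.1 q.2 ∈ Reg Q}.ncard : ℕ) : ℝ)

/-- package HTX (compare `P8H88/WS/Fpl.lean`, the case `n ≥ 4`): the finite part of the height for
all triples; `n` is the valuation of `a b c` at the prime `2`, whose norm is `4`. For the odd primes
`P ∣ a b c` the term is `2 v log q`; at `2` the valuation of `j` is `8 - 2 n` for `n ≥ 1` and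
positive for `n = 0`, so the term is `max 0 (2 n - 8) log 4` -/
def S_HTX : Prop := ∀ (K : Type) [Field K] [NumberField K] (σ τ : K →+* ℝ), Gold K σ τ →
  ∀ (t : 𝓞 K × 𝓞 K × 𝓞 K) (n : ℕ), Triple t →
  t.1 * t.2.1 * t.2.2 ∈ (Ideal.span {(2 : 𝓞 K)}) ^ n →
  t.1 * t.2.1 * t.2.2 ∉ (Ideal.span {(2 : 𝓞 K)}) ^ (n + 1) →
  ∑ᶠ v : HeightOneSpectrum (𝓞 K), Real.log (max (FinitePlace.mk v (jL (lamT t))) 1) =
    2 * Real.log (Ideal.absNorm (Ideal.span {t.1 * t.2.1 * t.2.2}) : ℝ) -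
      2 * (n : ℝ) * Real.log 4 + max 0 (2 * (n : ℝ) - 8) * Real.log 4

/-- package WEX: the ideal of a triple for the set `T`: `ord P w` is the valuation of `a b c` for
`P ∈ T` and the valuation minus one (or zero) for `P ∉ T` (`c = -(a + b)`). Unique; and
`N(w) rad ≤ N(a b c) ∏_{P ∈ T} q` -/
def S_WEX : Prop := ∀ (K : Type) [Field K] [NumberField K]
  (T : Finset (HeightOneSpectrum (𝓞 K))) (t : 𝓞 K × 𝓞 K × 𝓞 K), Triple t →
  ∃ w : Ideal (𝓞 K), w ≠ ⊥ ∧ (∀ P, CX T P (ord P w) t.1 t.2.1) ∧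
    (Ideal.absNorm w : ℝ) * rad t ≤
      (Ideal.absNorm (Ideal.span {t.1 * t.2.1 * t.2.2}) : ℝ) * ∏ P ∈ T, nP P ∧
    ∀ w' : Ideal (𝓞 K), w' ≠ ⊥ → (∀ P, CX T P (ord P w') t.1 t.2.1) → w' = w

/-- package ABS (from BETA, KKJ; compare `P8H82/JG/Fin.lean`): the abstract limit theorem. `α` are
the objects, `N` the size, `s` the two real shapes, `Rel i a`: `a` has the type `i`.
Proof: the objects with a type in a finite set `F` and shapes in `KK R ×ˢ KK R` have the limit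
`∑_{i ∈ F} κ i mass (Q i ∩ (KK R ×ˢ KK R))` (finite sum of the limits), the others number at most
`ε X ^ θ`. Summability: `∑_{i ∈ F} κ i mass (KK R ×ˢ KK R)` is at most the upper limit of
`#{N ≤ X} / X ^ θ`, which is finite; let `R → ∞` -/
def S_ABS : Prop := ∀ (α ι : Type) (N : α → ℝ) (s : α → ℝ × ℝ) (Rel : ι → α → Prop) (κ : ι → ℝ)
  (θ : ℝ), 0 < θ → (∀ X : ℝ, {a | N a ≤ X}.Finite) →
  (∀ a, ∃ i, Rel i a) → (∀ a i j, Rel i a → Rel j a → i = j) → (∀ i, 0 ≤ κ i) →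
  (∀ (i : ι) (R : ℝ) (Q : Set (ℝ × ℝ)), 1 ≤ R → MeasurableSet Q → volume (frontier Q) = 0 →
    Q ⊆ KK R ×ˢ KK R → Tendsto (fun X : ℝ =>
      (({a | N a ≤ X ∧ Rel i a ∧ s a ∈ Q}.ncard : ℕ) : ℝ) / X ^ θ) atTop
      (𝓝 (κ i * ∫ x in Q, dens x.1 * dens x.2))) →
  (∀ ε : ℝ, 0 < ε → ∃ (F : Finset ι) (R : ℝ), 1 ≤ R ∧ ∀ᶠ X : ℝ in atTop,
    (({a | N a ≤ X ∧ ¬ ∃ i ∈ F, Rel i a ∧ s a ∈ KK R ×ˢ KK R}.ncard : ℕ) : ℝ) ≤ ε * X ^ θ) →
  Summable κ ∧ ∀ Q : ι → Set (ℝ × ℝ),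
    (∀ i, MeasurableSet (Q i) ∧ volume (frontier (Q i)) = 0) →
    Tendsto (fun X : ℝ => (({a | N a ≤ X ∧ ∃ i, Rel i a ∧ s a ∈ Q i}.ncard : ℕ) : ℝ) / X ^ θ) atTop
      (𝓝 (∑' i, κ i * ∫ x in Q i, dens x.1 * dens x.2))

end Pool.Agent.P8H82.FF
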