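import Mathlib
import Pool.Agent.P8H82.FF.Stm
import Pool.Agent.P8H82.WS.Main

set_option autoImplicit false

/-!
# Project FF: the main term for one type
-/

namespace Pool.Agent.P8H82.FF

open NumberField IsDedekindDomain MeasureTheory Filter Topology
open Pool.Agent.P8H82.JG (Gold Triple Rep rad dens shp Cnd dl nP ord c0 KK Reg emb lam mass lam_pos
  S_BETA S_RAD S_REG S_VOL)
open Pool.Agent.P8H82.WS (lamT jL S_LAM lamT_unit)

variable {K : Type} [Field K] [NumberField K]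

theorem mem_unit {P : Ideal (𝓞 K)} (u : (𝓞 K)ˣ) (a : 𝓞 K) : (u : 𝓞 K) * a ∈ P ↔ a ∈ P :=
  Ideal.unit_mul_mem_iff_mem P u.isUnit

theorem prod_unit (u : (𝓞 K)ˣ) (a b : 𝓞 K) : (u * a) * (u * b) * (u * a + u * b) =
    ((u ^ 3 : (𝓞 K)ˣ) : 𝓞 K) * (a * b * (a + b)) := by
  push_cast
  ring

theorem ex_unit {P : HeightOneSpectrum (𝓞 K)} {n : ℕ} {a b : 𝓞 K} (u : (𝓞 K)ˣ) (h : Ex P n a b) :
    Ex P n (u * a) (u * b) := by
  obtain ⟨h1, h2, h3⟩ := h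
  refine ⟨?_, ?_, ?_⟩
  · rw [mem_unit, mem_unit]
    exact h1
  · rw [prod_unit, mem_unit]
    exact h2
  · rw [prod_unit, mem_unit]
    exact h3

theorem cnd_unit {P : HeightOneSpectrum (𝓞 K)} {n : ℕ} {a b : 𝓞 K} (u : (𝓞 K)ˣ) (h : Cnd P n a b) :
    Cnd P n (u * a) (u * b) := by
  obtain ⟨h1, h2, h3⟩ := h
  refine ⟨?_, ?_, ?_⟩
  · rw [mem_unit, mem_unit]
    exact h1
  · rw [prod_unit, mem_unit]
    exact h2
  · rw [prod_unit, mem_unit]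
    exact h3

theorem cx_unit {T : Finset (HeightOneSpectrum (𝓞 K))} {P : HeightOneSpectrum (𝓞 K)} {n : ℕ}
    {a b : 𝓞 K} (u : (𝓞 K)ˣ) (h : CX T P n a b) : CX T P n (u * a) (u * b) :=
  ⟨fun hP => ex_unit u (h.1 hP), fun hP => cnd_unit u (h.2 hP)⟩

/-- the conditions imply that the pair is coprime -/
theorem cx_cop {T : Finset (HeightOneSpectrum (𝓞 K))} {ν : HeightOneSpectrum (𝓞 K) → ℕ}
    {a b : 𝓞 K} (h : ∀ P, CX T P (ν P) a b) : Ideal.span {a, b} = (⊤ : Ideal (𝓞 K)) := by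
  by_contra hne
  obtain ⟨M, hM, hle⟩ := Ideal.exists_le_maximal _ hne
  have hbot : M ≠ ⊥ := Ring.ne_bot_of_isMaximal_of_not_isField hM
    (NumberField.RingOfIntegers.not_isField K)
  have ha : a ∈ M := hle (Ideal.subset_span (by simp))
  have hb : b ∈ M := hle (Ideal.subset_span (by simp))
  have hP := h ⟨M, hM.isPrime, hbot⟩
  by_cases hT : (⟨M, hM.isPrime, hbot⟩ : HeightOneSpectrum (𝓞 K)) ∈ T
  · exact (hP.1 hT).1 ⟨ha, hb⟩
  · exact (hP.2 hT).1 ⟨ha, hb⟩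

/-- the parameters with the conditions `w`, norm at most `Z` and shapes in `Q` -/
def Par (σ τ : K →+* ℝ) (T : Finset (HeightOneSpectrum (𝓞 K))) (w : Ideal (𝓞 K)) (Z : ℝ)
    (Q : Set (ℝ × ℝ)) : Set K :=
  {l : K | ∃ t : 𝓞 K × 𝓞 K × 𝓞 K, Triple t ∧ lamT t = l ∧
      (∀ P, CX T P (ord P w) t.1 t.2.1) ∧
      (Ideal.absNorm (Ideal.span {t.1 * t.2.1 * t.2.2}) : ℝ) ≤ Z ∧ shp σ τ t ∈ Q}

/-- the main term -/
theorem par_lim (hASY : S_ASYX) (hREG : S_REG) (hVOL : S_VOL) (hGP : S_GPTS)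
    {σ τ : K →+* ℝ} (hG : Gold K σ τ) (T : Finset (HeightOneSpectrum (𝓞 K))) {w : Ideal (𝓞 K)}
    (hw : w ≠ ⊥) {R : ℝ} (hR : 1 ≤ R) {Q : Set (ℝ × ℝ)} (hQm : MeasurableSet Q)
    (hQf : volume (frontier Q) = 0) (hQ : Q ⊆ KK R ×ˢ KK R) :
    Tendsto (fun Z : ℝ => ((Par σ τ T w Z Q).ncard : ℝ) / Z ^ ((2 : ℝ) / 3)) atTop
      (𝓝 (lam * dn T w * ∫ x in Q, dens x.1 * dens x.2)) := by
  have hJ := hREG R Q hR hQm hQf hQ
  have h1 := hASY K σ τ hG T w (Reg Q) hw hJ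
  have hl : Tendsto (fun Z : ℝ => Z ^ ((1 : ℝ) / 6)) atTop atTop :=
    tendsto_rpow_atTop (by norm_num)
  have h2 := h1.comp hl
  rw [hVOL R Q hR hQm hQ] at h2
  have h3 := h2.const_mul (1 / 2 : ℝ)
  have e1 : (1 / 2 : ℝ) * (2 * Real.log ((1 + √5) / 2) * (∫ x in Q, dens x.1 * dens x.2) / 5 *
      dn T w) = lam * dn T w * ∫ x in Q, dens x.1 * dens x.2 := by
    unfold lam
    ring
  rw [e1] at h3
  refine h3.congr' ?_
  filter_upwards [eventually_ge_atTop (1 : ℝ)] with Z hZ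
  have hZ0 : 0 < Z := by linarith
  have h4 := hGP K σ τ hG (fun a b => ∀ P, CX T P (ord P w) a b)
    (fun u a b h P => cx_unit u (h P)) (fun a b h => cx_cop h) Z Q hZ
  simp only [Function.comp_apply]
  rw [← h4]
  have e3 : (Z ^ ((1 : ℝ) / 6)) ^ 4 = Z ^ ((2 : ℝ) / 3) := by
    rw [← Real.rpow_natCast, ← Real.rpow_mul hZ0.le]
    norm_num
  rw [e3]
  unfold Par
  ring

/-- the same with `Z = a X` -/
theorem par_lim' (hASY : S_ASYX) (hREG : S_REG) (hVOL : S_VOL) (hGP : S_GPTS)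
    {σ τ : K →+* ℝ} (hG : Gold K σ τ) (T : Finset (HeightOneSpectrum (𝓞 K))) {w : Ideal (𝓞 K)}
    (hw : w ≠ ⊥) {R : ℝ} (hR : 1 ≤ R) {Q : Set (ℝ × ℝ)} (hQm : MeasurableSet Q)
    (hQf : volume (frontier Q) = 0) (hQ : Q ⊆ KK R ×ˢ KK R) {a : ℝ} (ha : 0 < a) :
    Tendsto (fun X : ℝ => ((Par σ τ T w (a * X) Q).ncard : ℝ) / X ^ ((2 : ℝ) / 3)) atTop
      (𝓝 (a ^ ((2 : ℝ) / 3) * (lam * dn T w * ∫ x in Q, dens x.1 * dens x.2))) := by
  have h1 := (par_lim hASY hREG hVOL hGP hG T hw hR hQm hQf hQ).comp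
    (tendsto_id.const_mul_atTop ha)
  have h2 := h1.const_mul (a ^ ((2 : ℝ) / 3))
  refine h2.congr' ?_
  filter_upwards [eventually_gt_atTop (0 : ℝ)] with X hX
  simp only [Function.comp_apply, id]
  rw [Real.mul_rpow ha.le hX.le]
  have p1 : a ^ ((2 : ℝ) / 3) ≠ 0 := (Real.rpow_pos_of_pos ha _).ne'
  have p2 : X ^ ((2 : ℝ) / 3) ≠ 0 := (Real.rpow_pos_of_pos hX _).ne'
  field_simp

end Pool.Agent.P8H82.FF
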