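import Mathlib
import Pool.Agent.P8H82.FF.Stm

set_option autoImplicit false

/-!
# Project FF: the packages TWG and TWE on the twists (light imports)
-/

namespace Pool.Agent.P8H82.FF

open NumberField IsDedekindDomain
open Pool.Agent.P8H82.JG (Gold)

/-- the classes of the twists, `Kˣ` modulo squares -/
abbrev Tw (K : Type) [Field K] : Type := Kˣ ⧸ (powMonoidHom 2 : Kˣ →* Kˣ).range

/-- a representative -/
noncomputable def rp {K : Type} [Field K] (d : Tw K) : K := ((Quotient.out d : Kˣ) : K)

/-- package TWG: the group of the classes `δ` with all values outside two even has eight elements: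
`𝓞` is principal (`Pool.Agent.P8H20.WS.Lam`), so `δ = u 2 ^ k z²` (`Pool.Agent.P8H71.WS.GLO.sq_of_even`,
`unit_rep`: `u = ± φ ^ m`), hence `δ ∈ {1, -1, φ, -φ, 2, -2, 2 φ, -2 φ}` up to squares; these are different:
the signs under `σ`, `τ` of `1, -1, φ, -φ` are different, and `2` is inert, the valuation there is odd
exactly for the last four -/
def S_TWG : Prop := ∀ (K : Type) [Field K] [NumberField K] (σ τ : K →+* ℝ), Gold K σ τ →
  {d : Tw K | ∀ v : HeightOneSpectrum (𝓞 K), v.valuation K 2 = 1 →
    ∃ x : K, x ≠ 0 ∧ v.valuation K (x ^ 2 * rp d) = 1}.ncard = 8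

/-- package TWE: an element with given parities outside two (`𝓞` is principal: the generator of
the product of the primes in `D`) -/
def S_TWE : Prop := ∀ (K : Type) [Field K] [NumberField K] (σ τ : K →+* ℝ), Gold K σ τ →
  ∀ D : Finset (HeightOneSpectrum (𝓞 K)), ∃ δ : K, δ ≠ 0 ∧
    ∀ v : HeightOneSpectrum (𝓞 K), v ∉ D ↔ ∃ x : K, x ≠ 0 ∧ v.valuation K (x ^ 2 * δ) = 1

end Pool.Agent.P8H82.FF
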