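import Mathlib
import Pool.Agent.P8H82.FF.StmT
import Pool.Agent.R365.CV.Tail

set_option autoImplicit false

/-!
# Project FF, second list of packages: the family of ALL elliptic curves over `ℚ(√5)` with full two-torsion
(all twists), the twists with given additive primes, the conductor, the tail.

The library definitions (`Pool/Agent/Y729/AH/TwLoc.lean`, `TwCond.lean`, `TwUp.lean`): `EE a b` is the curve
`y² = x (x - a) (x - b)`; `Pm E a b`: the differences of the roots are `a`, `b`; `SemiAt v E`; `AA E` is the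
finite set of the additive primes not above two; `cond E` is the part outside two of the norm of the
conductor; `T2 K` the set of the primes above two; `Iso K` the isomorphism classes, `cl E` the class.
In `Pool/Agent/TH876/Glob.lean`: `nn D` is the product of the norms of the primes in `D`; `Pr K` is
`HeightOneSpectrum (𝓞 K)`; `sp x` the primes where `x` or `x + 1` is not a unit; `hgt x` the logarithmic
height of `(x : 1 : -x-1)`, not divided by the degree; `fv v` the absolute value.
-/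

namespace Pool.Agent.P8H82.FF

open NumberField IsDedekindDomain MeasureTheory Filter Topology
open Pool.Agent.P8H82.JG (Gold Triple rad height ord nP dl c0 KK shp S_HT S_RAD S_C0)
open Pool.Agent.P8H82.WS (lamT)
open Pool.Agent.Y729.AH (EE Pm AA cond T2 Iso cl)
open Pool.Agent.TH876.Loc (nn hgt sp)

/-- the curve `y² = x (x - δ) (x - δ l)`, with full two-torsion, parameter `l` and twist class `d` of `δ` -/
noncomputable def crv {K : Type} [Field K] (p : K × Tw K) : WeierstrassCurve K :=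
  EE (rp p.2) (rp p.2 * p.1)

/-- the parameter is admissible -/
def Ok {K : Type} [Field K] (p : K × Tw K) : Prop := p.1 ≠ 0 ∧ p.1 ≠ 1

/-- package HGTX: multiply the coordinates of `(- l : 1 : l - 1) = (a / c : 1 : b / c)` by `c` and use the
product formula; at the finite places the maximum is `1`, as the triple is in lowest terms. Compare
`Pool.Agent.Y728.AK.height3_eq`, `Pool.Agent.P8H20.WS` and the definition of `hgt`; the complex embeddings
are given by `S_CPX` (`s_cpx` in `P8H82/JG`), the infinite places by `S_IPL` (`P8H88/WS/Ipl.lean`) -/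
def S_HGTX : Prop := ∀ (K : Type) [Field K] [NumberField K] (σ τ : K →+* ℝ), Gold K σ τ →
  ∀ t : 𝓞 K × 𝓞 K × 𝓞 K, Triple t → hgt (-(lamT t)) = Real.log (height t)

/-- package TWC (from TWG, TWE and `Pool.Agent.Y729.AH.semi_iff`, `mem_AA`, `pm_EE`): exactly eight
twists of the curve with the parameter `l` have the additive primes `D`. At an odd `v` the twist by `δ` is
semistable iff `v (δ) + min (0, v (l))` is even (`max (|δ|, |δ l|)` is a square in the value group); so the
classes `d` in question are a coset of the group of TWG -/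
def S_TWC : Prop := ∀ (K : Type) [Field K] [NumberField K] (σ τ : K →+* ℝ), Gold K σ τ →
  ∀ (l : K) (D : Finset (HeightOneSpectrum (𝓞 K))), l ≠ 0 → l ≠ 1 → (∀ v ∈ D, v ∉ T2 K) →
  {d : Tw K | AA (crv (l, d)) = D}.ncard = 8

/-- package FIB (from `pm_change`, `pm_iso`, `EE_scale`, `cl_of`, `cl_eq`): every curve with three points of
order two is in the family; and a class comes from at most six pairs, as the pair is determined by
the order of the three roots: if `C • E = crv p` then `e 1 - e 0 = u² δ`, `e 2 - e 0 = u² δ l` for some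
ordering `e` of the roots of `E` -/
def S_FIB : Prop := ∀ (K : Type) [Field K] [NumberField K],
  (∀ (E : WeierstrassCurve K) (a b : K), Pm E a b →
    ∃ p : K × Tw K, Ok p ∧ p.1 = b / a ∧ cl (crv p) = cl E) ∧
  ∀ q : Iso K, {p : K × Tw K | Ok p ∧ cl (crv p) = q}.Finite ∧
    {p : K × Tw K | Ok p ∧ cl (crv p) = q}.ncard ≤ 6

/-- package CONDX (from `Pool.Agent.Y729.AH.cond_eq`, `pm_EE`): `cond = ∏ q · N(D)²`, the product over the
`P ∣ a b c` outside `D` and two; `N(a b c) = ∏ q ^ v`; and `ord P w` is `v` in `D ∪ T2 K`, and `max (v - 1) 0`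
elsewhere. (`sp (-l)` is the set of the primes dividing `a b c`, as `- l = a / c`, `1 - l = - b / c`) -/
def S_CONDX : Prop := ∀ (K : Type) [Field K] [NumberField K] (σ τ : K →+* ℝ), Gold K σ τ →
  ∀ (t : 𝓞 K × 𝓞 K × 𝓞 K) (d : Tw K) (D : Finset (HeightOneSpectrum (𝓞 K))) (w : Ideal (𝓞 K)),
  Triple t → AA (crv (lamT t, d)) = D → w ≠ ⊥ →
  (open Classical in ∀ P, CX (D ∪ T2 K) P (ord P w) t.1 t.2.1) →
  cond (crv (lamT t, d)) * (Ideal.absNorm w : ℝ) =
    nn D ^ 2 * (Ideal.absNorm (Ideal.span {t.1 * t.2.1 * t.2.2}) : ℝ)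

/-- package TAILX (from `Pool.Agent.R365.CV.curve_tail`, `Pool.Agent.Y729.AH.cl2_upper` (finiteness), FIB,
HGTX, HT, RAD): `curve_tail` with `c = 1 / 4` and `t = log R - C`. By HT with the repeated part `w` of the
triple, `3 hgt(- l) = 3 log (height t) ≥ log (rad t) + log (R / 2)` if `R ≤ N(w)` or if the shapes are outside
`KK R ×ˢ KK R`, and `hh ≥ 1` in general; `log (rad t) ≥ log (nn (sp (-l) \ T2 K))` -/
def S_TAILX : Prop := ∀ (K : Type) [Field K] [NumberField K] (σ τ : K →+* ℝ), Gold K σ τ →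
  (∀ X : ℝ, {p : K × Tw K | Ok p ∧ cond (crv p) ≤ X}.Finite) ∧
  ∀ ε : ℝ, 0 < ε → ∃ R : ℝ, 1 ≤ R ∧ ∀ᶠ X : ℝ in atTop,
    (({p : K × Tw K | Ok p ∧ cond (crv p) ≤ X ∧ ¬ (nn (AA (crv p)) ≤ R ∧
      ∃ t : 𝓞 K × 𝓞 K × 𝓞 K, Triple t ∧ lamT t = p.1 ∧
        (Ideal.absNorm (Ideal.span {t.1 * t.2.1 * t.2.2}) : ℝ) ≤ R * rad t ∧
        shp σ τ t ∈ KK R ×ˢ KK R)}.ncard : ℕ) : ℝ) ≤ ε * X ^ ((2 : ℝ) / 3)

/-- package FINT: finitely many sets of primes with bounded norm -/
def S_FINT : Prop := ∀ (K : Type) [Field K] [NumberField K] (R : ℝ),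
  {D : Finset (HeightOneSpectrum (𝓞 K)) | nn D ≤ R}.Finite

/-- the weight of the type `(D, w)`: `D` are the additive primes, `w` the ideal of WEX for `D ∪ T2 K` -/
noncomputable def wt (K : Type) [Field K] [NumberField K]
    (i : Finset (HeightOneSpectrum (𝓞 K)) × Ideal (𝓞 K)) : ℝ :=
  open Classical in
  if (∃ P ∈ i.1, P ∈ T2 K) ∨ i.2 = ⊥ then 0 else
    nn i.1 ^ (-(4 : ℝ) / 3) * (Ideal.absNorm i.2 : ℝ) ^ ((2 : ℝ) / 3) * dn (i.1 ∪ T2 K) i.2

/-- package EULX (from DENX, C0; compare `P8H60/JG/Eul.lean`, `sum_AZ`): the Euler product of the number of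
curves. The factor at `P ∉ T2 K` is `∑ e, q ^ (2 e / 3) dl q e` (for `P ∉ D`) plus
`q ^ (- 4 / 3) ∑ n, q ^ (2 n / 3) dx q n` (for `P ∈ D`), with
`∑ n, q ^ (2 n / 3) dx q n = (1 - 1 / q) (1 + q ^ (- 1 / 3)) ^ 3`, which is also the factor at
`P ∈ T2 K`. Sum over the types with `D ⊆ Z` and the primes of `w` in `Z`, for finite `Z ⊇ T2 K` -/
def S_EULX : Prop := ∀ (K : Type) [Field K] [NumberField K], Summable (wt K) →
  HasProd (fun P : HeightOneSpectrum (𝓞 K) => open Classical in (1 - 1 / nP P) *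
    (if P ∈ T2 K then (1 + nP P ^ (-(1 : ℝ) / 3)) ^ 3 else
      1 + 1 / nP P + 4 * nP P ^ (-(4 : ℝ) / 3) + 6 * nP P ^ (-(5 : ℝ) / 3) + 3 / nP P ^ 2 +
        nP P ^ (-(7 : ℝ) / 3))) (∑' i, wt K i)

end Pool.Agent.P8H82.FF
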