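import Mathlib
import Pool.Agent.P8H82.FF.Stm2
import Pool.Agent.P8H82.FF.Mt
import Pool.Agent.P8H82.WS.Fin

set_option autoImplicit false

/-!
# Project FF: the types of the curves and the limit theorem for all of them
-/

namespace Pool.Agent.P8H82.FF

open NumberField IsDedekindDomain MeasureTheory Filter Topology
open Pool.Agent.P8H82.JG (Gold Triple Rep rad dens shp Cnd dl nP ord c0 KK Reg emb lam mass lam_pos
  S_BETA S_RAD S_REG S_VOL)
open Pool.Agent.P8H82.WS (lamT jL S_LAM lamT_unit)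
open Pool.Agent.Y729.AH (EE Pm AA cond T2 Iso cl)
open Pool.Agent.TH876.Loc (nn hgt sp nn_pos one_le_nn nn_union nn_mono)

/-- counting with fibres of `n` elements -/
theorem fib_card {A B : Type} (S : Set (A × B)) (hS : S.Finite) (P : Set A) (n : ℕ) (hn : 0 < n)
    (h : ∀ a b, (a, b) ∈ S → a ∈ P) (hP : ∀ a ∈ P, {b | (a, b) ∈ S}.ncard = n) :
    S.ncard = n * P.ncard := by
  classical
  have hPf : P.Finite := by
    refine (hS.image Prod.fst).subset fun a ha => ?_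
    have h1 : {b | (a, b) ∈ S}.ncard ≠ 0 := by
      rw [hP a ha]
      omega
    obtain ⟨b, hb⟩ := Set.nonempty_of_ncard_ne_zero h1
    exact ⟨(a, b), hb, rfl⟩
  have h1 := Finset.card_eq_sum_card_fiberwise (f := Prod.fst) (s := hS.toFinset)
    (t := hPf.toFinset) (by
      intro p hp
      rw [Set.Finite.coe_toFinset] at hp
      rw [Set.Finite.coe_toFinset]
      exact h p.1 p.2 hp)
  rw [Set.ncard_eq_toFinset_card S hS, h1, Set.ncard_eq_toFinset_card P hPf]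
  have h2 : ∀ a ∈ hPf.toFinset, (hS.toFinset.filter fun p => p.1 = a).card = n := by
    intro a ha
    rw [Set.Finite.mem_toFinset] at ha
    rw [← hP a ha, ← Set.ncard_image_of_injective (f := fun b => (a, b)) _
      (fun b b' hb => (Prod.mk.inj hb).2), ← Set.ncard_coe_finset]
    congr 1
    ext p
    rw [Finset.coe_filter, Set.mem_setOf_eq, Set.Finite.mem_toFinset]
    constructor
    · rintro ⟨h3, rfl⟩
      exact ⟨p.2, h3, rfl⟩
    · rintro ⟨b, hb, rfl⟩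
      exact ⟨hb, rfl⟩
  rw [Finset.sum_congr rfl h2, Finset.sum_const, smul_eq_mul, mul_comm]

variable {K : Type} [Field K] [NumberField K]

/-- the types -/
abbrev Ty (K : Type) [Field K] [NumberField K] : Type :=
  Finset (HeightOneSpectrum (𝓞 K)) × Ideal (𝓞 K)

/-- a triple with the parameter `l` -/
noncomputable def trp (l : K) : 𝓞 K × 𝓞 K × 𝓞 K :=
  open Classical in
  if h : ∃ t : 𝓞 K × 𝓞 K × 𝓞 K, Triple t ∧ lamT t = l then h.choose else (0, 0, 0)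

/-- the shapes of a curve -/
noncomputable def sF (σ τ : K →+* ℝ) (p : K × Tw K) : ℝ × ℝ := shp σ τ (trp p.1)

/-- the curve has the type `i` -/
def Rl (i : Ty K) (p : K × Tw K) : Prop :=
  open Classical in
  AA (crv p) = i.1 ∧ i.2 ≠ ⊥ ∧ ∃ t : 𝓞 K × 𝓞 K × 𝓞 K, Triple t ∧ lamT t = p.1 ∧
    ∀ P, CX (i.1 ∪ T2 K) P (ord P i.2) t.1 t.2.1

/-- the conductor of the surface outside two -/
noncomputable def NF (p : K × Tw K) : ℝ := 25 * cond (crv p)

theorem trp_spec {t : 𝓞 K × 𝓞 K × 𝓞 K} (ht : Triple t) :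
    Triple (trp (lamT t)) ∧ lamT (trp (lamT t)) = lamT t := by
  have h : ∃ s : 𝓞 K × 𝓞 K × 𝓞 K, Triple s ∧ lamT s = lamT t := ⟨t, ht, rfl⟩
  unfold trp
  rw [dif_pos h]
  exact h.choose_spec

theorem shp_unit {σ τ : K →+* ℝ} (t : 𝓞 K × 𝓞 K × 𝓞 K) (u : (𝓞 K)ˣ) :
    shp σ τ ((u : 𝓞 K) * t.1, (u : 𝓞 K) * t.2.1, (u : 𝓞 K) * t.2.2) = shp σ τ t := by
  have hu : ((u : 𝓞 K) : K) ≠ 0 := by
    have := u.ne_zero
    exact_mod_cast this
  have h1 : σ ((u : 𝓞 K) : K) ≠ 0 := (map_ne_zero σ).2 hu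
  have h2 : τ ((u : 𝓞 K) : K) ≠ 0 := (map_ne_zero τ).2 hu
  unfold shp
  simp only
  push_cast
  rw [map_mul, map_mul, map_mul, map_mul, mul_div_mul_left _ _ h1, mul_div_mul_left _ _ h2]

theorem shp_eq (hL : S_LAM) {σ τ : K →+* ℝ} (hG : Gold K σ τ) {t : 𝓞 K × 𝓞 K × 𝓞 K}
    (ht : Triple t) {p : K × Tw K} (hp : lamT t = p.1) : sF σ τ p = shp σ τ t := by
  obtain ⟨h1, h2⟩ := trp_spec ht
  obtain ⟨u, hu⟩ := (hL K hG.rank hG.five).2.2 t (trp (lamT t)) ht h1 h2.symm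
  unfold sF
  rw [← hp, hu, shp_unit]

/-- the type does not depend on the triple -/
theorem cx_all (hL : S_LAM) {σ τ : K →+* ℝ} (hG : Gold K σ τ) {t s : 𝓞 K × 𝓞 K × 𝓞 K}
    (ht : Triple t) (hs : Triple s) (h : lamT t = lamT s)
    {T : Finset (HeightOneSpectrum (𝓞 K))} {w : Ideal (𝓞 K)}
    (hc : ∀ P, CX T P (ord P w) t.1 t.2.1) : ∀ P, CX T P (ord P w) s.1 s.2.1 := by
  obtain ⟨u, hu⟩ := (hL K hG.rank hG.five).2.2 t s ht hs h
  rw [hu]
  exact fun P => cx_unit u (hc P)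

theorem cond_one (p : K × Tw K) (hp : Ok p) : 1 ≤ cond (crv p) := by
  classical
  have hd : rp p.2 ≠ 0 := Units.ne_zero _
  have hne : rp p.2 ≠ rp p.2 * p.1 := fun h => hp.2 (mul_left_cancel₀ hd (by rw [← h, mul_one]))
  have hpm := Pool.Agent.Y729.AH.pm_EE hd (mul_ne_zero hd hp.1) hne
  have hD : (crv p).Δ ≠ 0 := by
    have h1 : (crv p).Δ = 16 * rp p.2 ^ 6 * p.1 ^ 2 * (1 - p.1) ^ 2 := by
      unfold crv EE WeierstrassCurve.Δ WeierstrassCurve.b₂ WeierstrassCurve.b₄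
        WeierstrassCurve.b₆ WeierstrassCurve.b₈
      ring
    rw [h1]
    have h2 : (1 : K) - p.1 ≠ 0 := sub_ne_zero.2 (Ne.symm hp.2)
    have h3 := hp.1
    have h16 : (16 : K) ≠ 0 := by norm_num
    exact mul_ne_zero (mul_ne_zero (mul_ne_zero h16 (pow_ne_zero _ hd)) (pow_ne_zero _ h3))
      (pow_ne_zero _ h2)
  have h := Pool.Agent.Y729.AH.cond_eq (E := crv p) hD hpm
  rw [h]
  exact one_le_mul_of_one_le_of_one_le (one_le_nn _) (one_le_nn _)

theorem NF_one (p : K × Tw K) (hp : Ok p) : 1 ≤ NF p := by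
  have := cond_one p hp
  unfold NF
  linarith

/-- the ratio -/
noncomputable def rat (i : Ty K) : ℝ := (Ideal.absNorm i.2 : ℝ) / (25 * nn i.1 ^ 2)

theorem norm_pos {w : Ideal (𝓞 K)} (hw : w ≠ ⊥) : (0 : ℝ) < Ideal.absNorm w := by
  have : Ideal.absNorm w ≠ 0 := fun h => hw (Ideal.absNorm_eq_zero_iff.1 h)
  exact_mod_cast Nat.pos_of_ne_zero this

/-- the curves of one type and the parameters -/
theorem typ_card (hL : S_LAM) (hTC : S_TWC) (hCX : S_CONDX)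
    {σ τ : K →+* ℝ} (hG : Gold K σ τ)
    (hfin : ∀ X : ℝ, {p : K × Tw K | Ok p ∧ cond (crv p) ≤ X}.Finite)
    (i : Ty K) (hD : ∀ v ∈ i.1, v ∉ T2 K) (hw : i.2 ≠ ⊥) (X : ℝ) (Q : Set (ℝ × ℝ)) :
    open Classical in
    {p : K × Tw K | Ok p ∧ NF p ≤ X ∧ Rl i p ∧ sF σ τ p ∈ Q}.ncard =
      8 * (Par σ τ (i.1 ∪ T2 K) i.2 (rat i * X) Q).ncard := by
  classical
  have hN := norm_pos hw
  have hn := nn_pos i.1
  -- the norm and the conductor
  have key : ∀ (t : 𝓞 K × 𝓞 K × 𝓞 K) (d : Tw K), Triple t → AA (crv (lamT t, d)) = i.1 →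
      (∀ P, CX (i.1 ∪ T2 K) P (ord P i.2) t.1 t.2.1) →
      (NF (lamT t, d) ≤ X ↔
        (Ideal.absNorm (Ideal.span {t.1 * t.2.1 * t.2.2}) : ℝ) ≤ rat i * X) := by
    intro t d ht hA hc
    have h1 := hCX K σ τ hG t d i.1 i.2 ht hA hw (by convert hc)
    unfold NF rat
    have h2 : (Ideal.absNorm (Ideal.span {t.1 * t.2.1 * t.2.2}) : ℝ) =
        cond (crv (lamT t, d)) * (Ideal.absNorm i.2 : ℝ) / nn i.1 ^ 2 := by
      rw [h1]
      field_simp
    rw [h2, div_mul_eq_mul_div, div_le_div_iff₀ (by positivity) (by positivity)]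
    constructor
    · intro h
      have h3 : (25 * cond (crv (lamT t, d))) * ((Ideal.absNorm i.2 : ℝ) * nn i.1 ^ 2) ≤
          X * ((Ideal.absNorm i.2 : ℝ) * nn i.1 ^ 2) :=
        mul_le_mul_of_nonneg_right h (by positivity)
      linarith
    · intro h
      have h3 : (25 * cond (crv (lamT t, d))) * ((Ideal.absNorm i.2 : ℝ) * nn i.1 ^ 2) ≤
          X * ((Ideal.absNorm i.2 : ℝ) * nn i.1 ^ 2) := by linarith
      exact le_of_mul_le_mul_right h3 (by positivity)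
  refine fib_card _ ?_ _ 8 (by norm_num) ?_ ?_
  · refine (hfin (X / 25)).subset fun p hp => ⟨hp.1, ?_⟩
    have := hp.2.1
    unfold NF at this
    rw [le_div_iff₀ (by norm_num)]
    linarith
  · rintro l d ⟨h1, h2, ⟨h3, -, t, ht, hl, hc⟩, h4⟩
    simp only at hl
    rw [← hl] at h2 h3
    refine ⟨t, ht, hl, by convert hc, (key t d ht h3 (by convert hc)).1 h2, ?_⟩
    rw [← shp_eq hL hG ht (p := (l, d)) hl]
    exact h4
  · rintro l ⟨t, ht, rfl, hc, hZ, hs⟩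
    obtain ⟨a1, a2⟩ := (hL K hG.rank hG.five).1 t ht
    rw [← hTC K σ τ hG (lamT t) i.1 a1 a2 hD]
    congr 1
    ext d
    simp only [Set.mem_setOf_eq]
    constructor
    · rintro ⟨-, -, ⟨h3, -⟩, -⟩
      exact h3
    · intro h3
      refine ⟨⟨a1, a2⟩, (key t d ht h3 hc).2 hZ, ⟨h3, hw, t, ht, rfl, by convert hc⟩, ?_⟩
      rw [shp_eq hL hG ht (p := (lamT t, d)) rfl]
      exact hs

end Pool.Agent.P8H82.FF
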