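import Mathlib
import Pool.Agent.P8H82.FF.Typ

set_option autoImplicit false

/-!
# Project FF: the limit theorem for all the curves
-/

namespace Pool.Agent.P8H82.FF

open NumberField IsDedekindDomain MeasureTheory Filter Topology
open Pool.Agent.P8H82.JG (Gold Triple Rep rad dens shp Cnd dl nP ord c0 KK Reg emb lam mass lam_pos
  S_BETA S_RAD S_REG S_VOL)
open Pool.Agent.P8H82.WS (lamT jL S_LAM lamT_unit)
open Pool.Agent.Y729.AH (EE Pm AA cond T2 Iso cl)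
open Pool.Agent.TH876.Loc (nn hgt sp nn_pos one_le_nn nn_union nn_mono)

variable {K : Type} [Field K] [NumberField K]

/-- the constant of a type -/
noncomputable def kap (K : Type) [Field K] [NumberField K] (i : Ty K) : ℝ :=
  8 * (1 / 25 : ℝ) ^ ((2 : ℝ) / 3) * lam * wt K i

theorem wt_nonneg (hDN : S_DENX) (i : Ty K) : 0 ≤ wt K i := by
  classical
  unfold wt
  split_ifs with h
  · exact le_rfl
  · rw [not_or] at h
    have h1 := (hDN K (i.1 ∪ T2 K) i.2 h.2).2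
    have h2 := nn_pos i.1
    have h3 := Real.rpow_nonneg h2.le (-(4 : ℝ) / 3)
    have h4 := Real.rpow_nonneg (Nat.cast_nonneg (α := ℝ) (Ideal.absNorm i.2)) ((2 : ℝ) / 3)
    refine mul_nonneg (mul_nonneg h3 h4) ?_
    convert h1

theorem kap_nonneg (hDN : S_DENX) (i : Ty K) : 0 ≤ kap K i := by
  have h1 := wt_nonneg hDN i
  have h2 := lam_pos
  unfold kap
  positivity

/-- the limit for one type -/
theorem typ_lim (hASY : S_ASYX) (hREG : S_REG) (hVOL : S_VOL) (hGP : S_GPTS) (hL : S_LAM)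
    (hTC : S_TWC) (hCX : S_CONDX) {σ τ : K →+* ℝ} (hG : Gold K σ τ)
    (hfin : ∀ X : ℝ, {p : K × Tw K | Ok p ∧ cond (crv p) ≤ X}.Finite)
    (i : Ty K) {R : ℝ} (hR : 1 ≤ R) {Q : Set (ℝ × ℝ)} (hQm : MeasurableSet Q)
    (hQf : volume (frontier Q) = 0) (hQ : Q ⊆ KK R ×ˢ KK R) :
    Tendsto (fun X : ℝ => ({p : K × Tw K | Ok p ∧ NF p ≤ X ∧ Rl i p ∧ sF σ τ p ∈ Q}.ncard : ℝ) /
      X ^ ((2 : ℝ) / 3)) atTop (𝓝 (kap K i * ∫ x in Q, dens x.1 * dens x.2)) := by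
  classical
  by_cases hz : (∃ P ∈ i.1, P ∈ T2 K) ∨ i.2 = ⊥
  · have h0 : kap K i = 0 := by
      unfold kap wt
      rw [if_pos hz, mul_zero]
    rw [h0, zero_mul]
    have he : ∀ X : ℝ, {p : K × Tw K | Ok p ∧ NF p ≤ X ∧ Rl i p ∧ sF σ τ p ∈ Q} = ∅ := by
      intro X
      ext p
      simp only [Set.mem_setOf_eq, Set.mem_empty_iff_false, iff_false]
      rintro ⟨hp, -, ⟨h1, h2, -⟩, -⟩
      rcases hz with ⟨P, hP, hP2⟩ | h
      · rw [← h1] at hP
        have hΔ : (crv p).Δ ≠ 0 := by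
          intro h0
          have hd : rp p.2 ≠ 0 := Units.ne_zero _
          have h3 : (crv p).Δ = 16 * rp p.2 ^ 6 * p.1 ^ 2 * (1 - p.1) ^ 2 := by
            unfold crv EE WeierstrassCurve.Δ WeierstrassCurve.b₂ WeierstrassCurve.b₄
              WeierstrassCurve.b₆ WeierstrassCurve.b₈
            ring
          rw [h3] at h0
          have h4 : (1 : K) - p.1 ≠ 0 := sub_ne_zero.2 (Ne.symm hp.2)
          exact (mul_ne_zero (mul_ne_zero (mul_ne_zero (by norm_num) (pow_ne_zero _ hd))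
            (pow_ne_zero _ hp.1)) (pow_ne_zero _ h4)) h0
        exact (Pool.Agent.Y729.AH.mem_T2 P).1 hP2
          ((Pool.Agent.Y729.AH.mem_AA hΔ P).1 hP).2
      · exact h2 h
    simp only [he, Set.ncard_empty, Nat.cast_zero, zero_div]
    exact tendsto_const_nhds
  · rw [not_or] at hz
    obtain ⟨hz1, hw⟩ := hz
    have hD : ∀ v ∈ i.1, v ∉ T2 K := fun v hv h => hz1 ⟨v, hv, h⟩
    have hN := norm_pos hw
    have hn := nn_pos i.1
    have hr : 0 < rat i := by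
      unfold rat
      positivity
    have h1 := (par_lim' hASY hREG hVOL hGP hG (i.1 ∪ T2 K) hw hR hQm hQf hQ hr).const_mul 8
    have e1 : 8 * (rat i ^ ((2 : ℝ) / 3) * (lam * dn (i.1 ∪ T2 K) i.2 *
        ∫ x in Q, dens x.1 * dens x.2)) = kap K i * ∫ x in Q, dens x.1 * dens x.2 := by
      unfold kap wt
      rw [if_neg (by rw [not_or]; exact ⟨hz1, hw⟩)]
      have e2 : rat i ^ ((2 : ℝ) / 3) = (1 / 25 : ℝ) ^ ((2 : ℝ) / 3) *
          (nn i.1 ^ (-(4 : ℝ) / 3) * (Ideal.absNorm i.2 : ℝ) ^ ((2 : ℝ) / 3)) := by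
        have e3 : rat i = (1 / 25) * ((nn i.1 ^ 2)⁻¹ * (Ideal.absNorm i.2 : ℝ)) := by
          unfold rat
          field_simp
        rw [e3, Real.mul_rpow (by norm_num) (by positivity), Real.mul_rpow (by positivity) hN.le,
          Real.inv_rpow (by positivity), ← Real.rpow_natCast, ← Real.rpow_mul hn.le,
          ← Real.rpow_neg hn.le]
        norm_num
      rw [e2]
      ring
    rw [e1] at h1
    refine h1.congr fun X => ?_
    rw [typ_card hL hTC hCX hG hfin i hD hw X Q]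
    push_cast
    ring

/-- **the limit theorem** -/
theorem all_lim (hABS : S_ABS) (hDN : S_DENX) (hWE : S_WEX) (hFI : S_FINT) (hTX : S_TAILX)
    (hASY : S_ASYX) (hREG : S_REG) (hVOL : S_VOL) (hGP : S_GPTS) (hL : S_LAM)
    (hTC : S_TWC) (hCX : S_CONDX) {σ τ : K →+* ℝ} (hG : Gold K σ τ) :
    Summable (kap K) ∧ ∀ Q : Ty K → Set (ℝ × ℝ),
      (∀ i, MeasurableSet (Q i) ∧ volume (frontier (Q i)) = 0) →
      Tendsto (fun X : ℝ => ({p : K × Tw K | Ok p ∧ NF p ≤ X ∧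
        ∃ i, Rl i p ∧ sF σ τ p ∈ Q i}.ncard : ℝ) / X ^ ((2 : ℝ) / 3)) atTop
        (𝓝 (∑' i, kap K i * ∫ x in Q i, dens x.1 * dens x.2)) := by
  classical
  obtain ⟨hfin, htail⟩ := hTX K σ τ hG
  -- subtypes
  have hcard : ∀ (P : K × Tw K → Prop),
      {a : {p : K × Tw K // Ok p} | P a.1}.ncard = {p : K × Tw K | Ok p ∧ P p}.ncard := by
    intro P
    rw [← Set.ncard_image_of_injective _ Subtype.val_injective]
    congr 1
    ext p
    constructor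
    · rintro ⟨a, h1, rfl⟩
      exact ⟨a.2, h1⟩
    · rintro ⟨h1, h2⟩
      exact ⟨⟨p, h1⟩, h2, rfl⟩
  have hNX : ∀ (p : K × Tw K) (X : ℝ), NF p ≤ X ↔ cond (crv p) ≤ X / 25 := by
    intro p X
    unfold NF
    rw [le_div_iff₀ (by norm_num), mul_comm]
  have hexi : ∀ p : K × Tw K, Ok p → ∀ t : 𝓞 K × 𝓞 K × 𝓞 K, Triple t → lamT t = p.1 →
      ∃ w : Ideal (𝓞 K), Rl (AA (crv p), w) p ∧ (Ideal.absNorm w : ℝ) * rad t ≤
        (Ideal.absNorm (Ideal.span {t.1 * t.2.1 * t.2.2}) : ℝ) *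
          ∏ P ∈ AA (crv p) ∪ T2 K, nP P := by
    intro p hp t ht hl
    obtain ⟨w, h1, h2, h3, -⟩ := hWE K (AA (crv p) ∪ T2 K) t ht
    exact ⟨w, ⟨rfl, h1, t, ht, hl, by convert h2⟩, h3⟩
  have h := hABS {p : K × Tw K // Ok p} (Ty K) (fun a => NF a.1) (fun a => sF σ τ a.1)
    (fun i a => Rl i a.1) (kap K) ((2 : ℝ) / 3) (by norm_num) ?_ ?_ ?_ (kap_nonneg hDN) ?_ ?_
  · refine ⟨h.1, fun Q hQ => ?_⟩
    refine (h.2 Q hQ).congr fun X => ?_
    have h1 := hcard fun p => NF p ≤ X ∧ ∃ i, Rl i p ∧ sF σ τ p ∈ Q i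
    rw [← h1]
  · intro X
    refine Set.Finite.of_finite_image (f := Subtype.val) ((hfin (X / 25)).subset ?_)
      Subtype.val_injective.injOn
    rintro p ⟨a, ha, rfl⟩
    exact ⟨a.2, (hNX _ _).1 ha⟩
  · rintro ⟨p, hp⟩
    obtain ⟨t, ht, hl⟩ := (hL K hG.rank hG.five).2.1 p.1 hp.1 hp.2
    obtain ⟨w, hw, -⟩ := hexi p hp t ht hl
    exact ⟨_, hw⟩
  · rintro ⟨p, hp⟩ ⟨D, w⟩ ⟨D', w'⟩ ⟨h1, h2, t, ht, hl, hc⟩ ⟨h1', h2', t', ht', hl', hc'⟩
    simp only at h1 h1' h2 h2' hc hc' hl hl'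
    obtain rfl : D = D' := by rw [← h1, ← h1']
    obtain ⟨w₀, -, -, -, hu⟩ := hWE K (D ∪ T2 K) t ht
    have h3 := hu w h2 (by convert hc)
    have h4 := hu w' h2' (by
      have := cx_all hL hG ht' ht (hl'.trans hl.symm) hc'
      convert this)
    rw [h3, h4]
  · intro i R Q hR hQm hQf hQ
    refine (typ_lim hASY hREG hVOL hGP hL hTC hCX hG hfin i hR hQm hQf hQ).congr fun X => ?_
    have h1 := hcard fun p => NF p ≤ X ∧ Rl i p ∧ sF σ τ p ∈ Q
    rw [← h1]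
  · intro ε hε
    obtain ⟨R, hR, hev⟩ := htail ε hε
    obtain ⟨F1, hF1⟩ : ∃ F1 : Finset (Finset (HeightOneSpectrum (𝓞 K))),
        ∀ D, D ∈ F1 ↔ nn D ≤ R := ⟨(hFI K R).toFinset, fun D => by simp⟩
    obtain ⟨F2, hF2⟩ : ∃ F2 : Finset (Ideal (𝓞 K)),
        ∀ w, w ∈ F2 ↔ Ideal.absNorm w ∈ Set.Iic ⌈R * (R * nn (T2 K))⌉₊ := by
      refine ⟨(Ideal.finite_setOf_absNorm_le (S := 𝓞 K) ⌈R * (R * nn (T2 K))⌉₊).toFinset, fun w => ?_⟩
      rw [Set.Finite.mem_toFinset]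
      rfl
    refine ⟨F1 ×ˢ F2, R, hR, ?_⟩
    have hs : Tendsto (fun X : ℝ => X / 25) atTop atTop := tendsto_id.atTop_div_const (by norm_num)
    filter_upwards [hs.eventually hev, eventually_gt_atTop (0 : ℝ)] with X hX hX0
    have h1 := hcard fun p => NF p ≤ X ∧ ¬ ∃ i ∈ F1 ×ˢ F2, Rl i p ∧ sF σ τ p ∈ KK R ×ˢ KK R
    rw [h1]
    have h2 : (X / 25) ^ ((2 : ℝ) / 3) ≤ X ^ ((2 : ℝ) / 3) :=
      Real.rpow_le_rpow (by positivity) (by linarith) (by norm_num)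
    refine le_trans ?_ (hX.trans (mul_le_mul_of_nonneg_left h2 hε.le))
    have h3 : ({p : K × Tw K | Ok p ∧ cond (crv p) ≤ X / 25 ∧ ¬ (nn (AA (crv p)) ≤ R ∧
      ∃ t : 𝓞 K × 𝓞 K × 𝓞 K, Triple t ∧ lamT t = p.1 ∧
        (Ideal.absNorm (Ideal.span {t.1 * t.2.1 * t.2.2}) : ℝ) ≤ R * rad t ∧
        shp σ τ t ∈ KK R ×ˢ KK R)}).Finite :=
      (hfin (X / 25)).subset fun p hp => ⟨hp.1, hp.2.1⟩
    refine Nat.cast_le.2 (Set.ncard_le_ncard ?_ h3)
    rintro p ⟨hp, hpX, hn⟩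
    refine ⟨hp, (hNX _ _).1 hpX, ?_⟩
    rintro ⟨k1, t, ht, hl, k2, k3⟩
    apply hn
    obtain ⟨w, hw, hwn⟩ := hexi p hp t ht hl
    refine ⟨(AA (crv p), w), ?_, hw, ?_⟩
    · rw [Finset.mem_product, hF1, hF2]
      refine ⟨k1, ?_⟩
      have hrad : 0 < rad t := by
        obtain ⟨-, h5, -⟩ := Pool.Agent.P8H82.WS.s_rad K t ht
        linarith
      have hprod : ∏ P ∈ AA (crv p) ∪ T2 K, nP P ≤ nn (AA (crv p)) * nn (T2 K) := by
        have e1 : ∏ P ∈ AA (crv p) ∪ T2 K, nP P = nn (AA (crv p) ∪ T2 K) := rfl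
        rw [e1, ← Finset.union_sdiff_self_eq_union, nn_union Finset.disjoint_sdiff]
        exact mul_le_mul_of_nonneg_left (nn_mono Finset.sdiff_subset) (nn_pos _).le
      have h6 : (Ideal.absNorm w : ℝ) * rad t ≤ (R * (R * nn (T2 K))) * rad t := by
        have hT := nn_pos (T2 K)
        have hP0 : 0 ≤ ∏ P ∈ AA (crv p) ∪ T2 K, nP P :=
          Finset.prod_nonneg fun P _ => Nat.cast_nonneg _
        calc (Ideal.absNorm w : ℝ) * rad t ≤ _ := hwn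
          _ ≤ (R * rad t) * ∏ P ∈ AA (crv p) ∪ T2 K, nP P :=
              mul_le_mul_of_nonneg_right k2 hP0
          _ ≤ (R * rad t) * (R * nn (T2 K)) := by
              refine mul_le_mul_of_nonneg_left (hprod.trans ?_) (by positivity)
              exact mul_le_mul_of_nonneg_right k1 hT.le
          _ = _ := by ring
      have h7 := le_of_mul_le_mul_right h6 hrad
      rw [Set.mem_Iic]
      have h8 := h7.trans (Nat.le_ceil _)
      exact_mod_cast h8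
    · rw [shp_eq hL hG ht hl]
      exact k3

end Pool.Agent.P8H82.FF
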