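import Mathlib
import Pool.Agent.P8H82.FF.All

set_option autoImplicit false

/-!
# Project FF: the law of the height for the pairs (parameter, twist)
-/

namespace Pool.Agent.P8H82.FF

open NumberField IsDedekindDomain MeasureTheory Filter Topology
open Pool.Agent.P8H82.JG (Gold Triple Rep rad dens shp Cnd dl nP ord c0 KK Reg emb lam mass lam_pos
  S_BETA S_RAD S_REG S_VOL)
open Pool.Agent.P8H82.WS (lamT jL S_LAM lamT_unit hA QQ aa aC S_QQ S_JT S_IPL S_TWO inc_aa jr)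
open Pool.Agent.Y729.AH (EE Pm AA cond T2 Iso cl)
open Pool.Agent.TH876.Loc (nn hgt sp nn_pos one_le_nn nn_union nn_mono)

variable {K : Type} [Field K] [NumberField K]

/-- the exponent of the prime two -/
noncomputable def n2 (w : Ideal (𝓞 K)) : ℕ :=
  open Classical in
  (UniqueFactorizationMonoid.normalizedFactors w).count (Ideal.span {(2 : 𝓞 K)})

/-- the shift of a type -/
noncomputable def cF (i : Ty K) : ℝ :=
  2 * Real.log 25 + 4 * Real.log (nn i.1) + min (2 * (n2 i.2 : ℝ)) 8 * Real.log 4 -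
    2 * Real.log (Ideal.absNorm i.2 : ℝ)

/-- the place above two -/
theorem mem_T2_of (hT : S_TWO) {σ τ : K →+* ℝ} (hG : Gold K σ τ) :
    ∃ P : HeightOneSpectrum (𝓞 K), P.asIdeal = Ideal.span {2} ∧ P ∈ T2 K := by
  obtain ⟨P, hP, -⟩ := hT K σ τ hG
  refine ⟨P, hP, ?_⟩
  rw [Pool.Agent.Y729.AH.mem_T2]
  have h1 : P.valuation K (2 : K) < 1 := by
    have h2 : (2 : 𝓞 K) ∈ P.asIdeal := by
      rw [hP]
      exact Ideal.mem_span_singleton_self 2
    rw [← P.valuation_lt_one_iff_mem (K := K)] at h2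
    refine lt_of_eq_of_lt (congrArg _ ?_) h2
    exact (map_ofNat (algebraMap (𝓞 K) K) 2).symm
  intro h
  rw [Pool.Agent.Y729.FW.fv_eq_one_iff] at h
  rw [h] at h1
  exact lt_irrefl _ h1

/-- the height of a curve of the type `i` -/
theorem height_iffF (hT : S_TWO) (hHT : S_HTX) (hIP : S_IPL) (hJT : S_JT) (hCX : S_CONDX)
    {σ τ : K →+* ℝ} (hG : Gold K σ τ) (x : ℝ) (i : Ty K) (t : 𝓞 K × 𝓞 K × 𝓞 K) (d : Tw K)
    (hOk : Ok (lamT t, d)) (ht : Triple t) (hA1 : AA (crv (lamT t, d)) = i.1) (hw : i.2 ≠ ⊥)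
    (hc : open Classical in ∀ P, CX (i.1 ∪ T2 K) P (ord P i.2) t.1 t.2.1) :
    hA (lamT t) ≤ 1 / 6 * Real.log (NF (lamT t, d)) + x ↔ shp σ τ t ∈ QQ aa (12 * x + cF i) := by
  classical
  obtain ⟨P, hP, hP2⟩ := mem_T2_of hT hG
  have hord : ord P i.2 = n2 i.2 := by
    unfold ord n2
    rw [hP]
  have hEx := (hc P).1 (Finset.mem_union_right _ hP2)
  rw [hord] at hEx
  obtain ⟨-, h1, h2⟩ := hEx
  have he : t.1 * t.2.1 * (t.1 + t.2.1) = -(t.1 * t.2.1 * t.2.2) := by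
    have := ht.sum
    have h3 : t.1 + t.2.1 = -t.2.2 := by linear_combination this
    rw [h3]
    ring
  rw [he, neg_mem_iff, hP] at h1 h2
  have hcond := hCX K σ τ hG t d i.1 i.2 ht hA1 hw hc
  have hN := norm_pos hw
  have hn := nn_pos i.1
  have hc1 : 1 ≤ cond (crv (lamT t, d)) := cond_one _ hOk
  have hc0 : 0 < cond (crv (lamT t, d)) := by linarith
  have hNabc : (Ideal.absNorm (Ideal.span {t.1 * t.2.1 * t.2.2}) : ℝ) =
      cond (crv (lamT t, d)) * (Ideal.absNorm i.2 : ℝ) / nn i.1 ^ 2 := by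
    rw [hcond]
    field_simp
  obtain ⟨s1, s2, s3⟩ := (hJT K t ht).2 σ
  obtain ⟨t1, t2, t3⟩ := (hJT K t ht).2 τ
  have hlog : Real.log (Ideal.absNorm (Ideal.span {t.1 * t.2.1 * t.2.2}) : ℝ) =
      Real.log (cond (crv (lamT t, d))) + Real.log (Ideal.absNorm i.2 : ℝ) -
        2 * Real.log (nn i.1) := by
    rw [hNabc, Real.log_div (by positivity) (by positivity), Real.log_mul hc0.ne' hN.ne',
      Real.log_pow]
    push_cast
    ring
  have hmm : min (2 * (n2 i.2 : ℝ)) 8 = 2 * (n2 i.2 : ℝ) - max 0 (2 * (n2 i.2 : ℝ) - 8) := by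
    rcases le_total (2 * (n2 i.2 : ℝ)) 8 with h | h
    · rw [min_eq_left h, max_eq_left (by linarith)]
      ring
    · rw [min_eq_right h, max_eq_right (by linarith)]
      ring
  have e1 : 12 * hA (lamT t) = 2 * (Real.log (cond (crv (lamT t, d))) +
      Real.log (Ideal.absNorm i.2 : ℝ) - 2 * Real.log (nn i.1)) -
        min (2 * (n2 i.2 : ℝ)) 8 * Real.log 4 +
        (aa (jr (σ t.1 / σ t.2.1)) + aa (jr (τ t.1 / τ t.2.1))) := by
    unfold hA
    rw [hHT K σ τ hG t (n2 i.2) ht h1 h2, hIP K σ τ hG aC (jL (lamT t)), s3, t3, hlog, hmm]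
    unfold aa
    ring
  have e2 : Real.log (NF (lamT t, d)) = Real.log 25 + Real.log (cond (crv (lamT t, d))) := by
    unfold NF
    rw [Real.log_mul (by norm_num) hc0.ne']
  unfold QQ shp cF
  simp only [Set.mem_setOf_eq]
  constructor
  · intro h
    refine ⟨s1, s2, t1, t2, ?_⟩
    rw [e2] at h
    linarith
  · rintro ⟨-, -, -, -, h⟩
    rw [e2]
    linarith

/-- the shapes of a parameter -/
theorem shp_lam {σ τ : K →+* ℝ} {t : 𝓞 K × 𝓞 K × 𝓞 K} (ht : Triple t) :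
    shp σ τ t = (σ (lamT t) / (1 - σ (lamT t)), τ (lamT t) / (1 - τ (lamT t))) := by
  have hc : ((t.2.2 : 𝓞 K) : K) ≠ 0 := by
    intro h
    apply ht.ne
    have : t.2.2 = 0 := by exact_mod_cast h
    rw [this, mul_zero]
  have hb : ((t.2.1 : 𝓞 K) : K) ≠ 0 := by
    intro h
    apply ht.ne
    have : t.2.1 = 0 := by exact_mod_cast h
    rw [this, mul_zero, zero_mul]
  have hs : ((t.1 : 𝓞 K) : K) + (t.2.1 : K) + (t.2.2 : K) = 0 := by
    have := congrArg (fun x : 𝓞 K => (x : K)) ht.sum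
    push_cast at this
    exact this
  have key : ((t.1 : 𝓞 K) : K) / (t.2.1 : K) = lamT t / (1 - lamT t) := by
    have h1 : 1 - lamT t = -((t.2.1 : 𝓞 K) : K) / (t.2.2 : K) := by
      unfold lamT
      field_simp
      linear_combination hs
    rw [h1]
    unfold lamT
    field_simp
  unfold shp
  have h2 : ∀ ρ : K →+* ℝ, ρ t.1 / ρ t.2.1 = ρ (lamT t) / (1 - ρ (lamT t)) := by
    intro ρ
    rw [← map_div₀, key, map_div₀, map_sub, map_one]
  rw [h2, h2]

section lims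

variable (hABS : S_ABS) (hDN : S_DENX) (hWE : S_WEX) (hFI : S_FINT) (hTX : S_TAILX)
    (hASY : S_ASYX) (hREG : S_REG) (hVOL : S_VOL) (hGP : S_GPTS) (hL : S_LAM)
    (hTC : S_TWC) (hCX : S_CONDX)
include hABS hDN hWE hFI hTX hASY hREG hVOL hGP hL hTC hCX

omit hABS hDN hFI hTX hASY hREG hVOL hGP hTC hCX in
/-- existence of a type -/
theorem exi_typ {σ τ : K →+* ℝ} (hG : Gold K σ τ) (p : K × Tw K) (hp : Ok p) :
    ∃ i : Ty K, Rl i p := by
  classical
  obtain ⟨t, ht, hl⟩ := (hL K hG.rank hG.five).2.1 p.1 hp.1 hp.2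
  obtain ⟨w, h1, h2, -, -⟩ := hWE K (AA (crv p) ∪ T2 K) t ht
  exact ⟨(AA (crv p), w), rfl, h1, t, ht, hl, by convert h2⟩

/-- the number -/
theorem tot_p {σ τ : K →+* ℝ} (hG : Gold K σ τ) :
    Tendsto (fun X : ℝ => ({p : K × Tw K | Ok p ∧ NF p ≤ X}.ncard : ℝ) / X ^ ((2 : ℝ) / 3)) atTop
      (𝓝 (∑' i, kap K i * mass Set.univ)) := by
  have h := (all_lim hABS hDN hWE hFI hTX hASY hREG hVOL hGP hL hTC hCX hG).2 (fun _ => Set.univ)
    (fun _ => ⟨MeasurableSet.univ, by simp⟩)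
  refine h.congr fun X => ?_
  congr 3
  ext p
  constructor
  · rintro ⟨h1, h2, -⟩
    exact ⟨h1, h2⟩
  · rintro ⟨h1, h2⟩
    obtain ⟨i, hi⟩ := exi_typ hWE hL hG p h1
    exact ⟨h1, h2, i, hi, Set.mem_univ _⟩

/-- the law of the height -/
theorem law_p (hT : S_TWO) (hHT : S_HTX) (hIP : S_IPL) (hJT : S_JT) (hQQ : S_QQ)
    {σ τ : K →+* ℝ} (hG : Gold K σ τ) (x : ℝ) :
    Tendsto (fun X : ℝ => ({p : K × Tw K | Ok p ∧ NF p ≤ X ∧
      hA p.1 ≤ 1 / 6 * Real.log (NF p) + x}.ncard : ℝ) / X ^ ((2 : ℝ) / 3)) atTop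
      (𝓝 (∑' i, kap K i * mass (QQ aa (12 * x + cF i)))) := by
  have h := (all_lim hABS hDN hWE hFI hTX hASY hREG hVOL hGP hL hTC hCX hG).2
    (fun i => QQ aa (12 * x + cF i)) (fun i => hQQ aa inc_aa _)
  have key : ∀ (p : K × Tw K) (i : Ty K), Ok p → Rl i p →
      (hA p.1 ≤ 1 / 6 * Real.log (NF p) + x ↔ sF σ τ p ∈ QQ aa (12 * x + cF i)) := by
    rintro ⟨l, d⟩ i hp ⟨h1, h2, t, ht, hl, hc⟩
    simp only at hl
    subst hl
    rw [shp_eq hL hG ht (p := (lamT t, d)) rfl]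
    exact height_iffF hT hHT hIP hJT hCX hG x i t d hp ht h1 h2 hc
  refine h.congr fun X => ?_
  congr 3
  ext p
  constructor
  · rintro ⟨h1, h2, i, hi, h3⟩
    exact ⟨h1, h2, (key p i h1 hi).2 h3⟩
  · rintro ⟨h1, h2, h3⟩
    obtain ⟨i, hi⟩ := exi_typ hWE hL hG p h1
    exact ⟨h1, h2, i, hi, (key p i h1 hi).1 h3⟩

/-- the curves with the invariant `1728` -/
theorem exc_p {σ τ : K →+* ℝ} (hG : Gold K σ τ) :
    Tendsto (fun X : ℝ => ({p : K × Tw K | Ok p ∧ NF p ≤ X ∧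
      (p.1 = -1 ∨ p.1 = 2 ∨ 2 * p.1 = 1)}.ncard : ℝ) / X ^ ((2 : ℝ) / 3)) atTop (𝓝 0) := by
  classical
  obtain ⟨hfin, -⟩ := hTX K σ τ hG
  obtain ⟨S, hS⟩ : ∃ S : Set (ℝ × ℝ), S = {(-1 / 2, -1 / 2), (-2, -2), (1, 1)} := ⟨_, rfl⟩
  have hSf : S.Finite := by
    rw [hS]
    exact Set.toFinite _
  have hS0 : volume S = 0 := hSf.measure_zero _
  have h := (all_lim hABS hDN hWE hFI hTX hASY hREG hVOL hGP hL hTC hCX hG).2 (fun _ => S)
    (fun _ => ⟨hSf.measurableSet, measure_mono_null (frontier_subset_closure.trans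
      (by rw [hSf.isClosed.closure_eq])) hS0⟩)
  have e0 : (∑' i : Ty K, kap K i * ∫ x in S, dens x.1 * dens x.2) = 0 := by
    have : (∫ x in S, dens x.1 * dens x.2) = 0 := by
      rw [Measure.restrict_eq_zero.2 hS0, integral_zero_measure]
    rw [this]
    simp
  rw [e0] at h
  refine squeeze_zero' ?_ ?_ h
  · filter_upwards [eventually_gt_atTop (0 : ℝ)] with X hX
    positivity
  · filter_upwards [eventually_gt_atTop (0 : ℝ)] with X hX
    refine div_le_div_of_nonneg_right (Nat.cast_le.2 (Set.ncard_le_ncard ?_ ?_)) (by positivity)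
    · rintro p ⟨h1, h2, h3⟩
      obtain ⟨i, hi⟩ := exi_typ hWE hL hG p h1
      refine ⟨h1, h2, i, hi, ?_⟩
      obtain ⟨t, ht, hl⟩ := (hL K hG.rank hG.five).2.1 p.1 h1.1 h1.2
      rw [shp_eq hL hG ht hl, shp_lam ht, hl, hS]
      simp only [Set.mem_insert_iff, Set.mem_singleton_iff, Prod.mk.injEq]
      have h4 : ∀ ρ : K →+* ℝ, (p.1 = -1 → ρ p.1 = -1) ∧ (p.1 = 2 → ρ p.1 = 2) ∧
          (2 * p.1 = 1 → ρ p.1 = 1 / 2) := by
        intro ρ
        refine ⟨fun h => ?_, fun h => ?_, fun h => ?_⟩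
        · rw [h, map_neg, map_one]
        · rw [h, map_ofNat]
        · have := congrArg ρ h
          rw [map_mul, map_one, map_ofNat] at this
          linarith
      rcases h3 with h3 | h3 | h3
      · left
        rw [(h4 σ).1 h3, (h4 τ).1 h3]
        norm_num
      · right; left
        rw [(h4 σ).2.1 h3, (h4 τ).2.1 h3]
        norm_num
      · right; right
        rw [(h4 σ).2.2 h3, (h4 τ).2.2 h3]
        norm_num
    · refine (hfin (X / 25)).subset fun p hp => ⟨hp.1, ?_⟩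
      have := hp.2.1
      unfold NF at this
      rw [le_div_iff₀ (by norm_num)]
      linarith

end lims

end Pool.Agent.P8H82.FF
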