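import Mathlib
import Pool.Agent.P8H82.FF.Stm2

set_option autoImplicit false

/-!
# Project FF, third list: from the pairs (parameter, twist) to the isomorphism classes
-/

namespace Pool.Agent.P8H82.FF

open NumberField IsDedekindDomain MeasureTheory Filter Topology
open Pool.Agent.P8H82.JG (Gold Triple)
open Pool.Agent.P8H82.WS (lamT)
open Pool.Agent.Y729.AH (EE Pm AA cond T2 Iso cl SemiAt)

/-- package SIX (as FIB): a curve whose invariant is not `0` or `1728` comes from exactly six pairs: the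
six orderings of the roots `0, δ, δ l` have the parameters `l, 1 / l, 1 - l, 1 / (1 - l), (l - 1) / l,
l / (l - 1)`, which are different -/
def S_SIX : Prop := ∀ (K : Type) [Field K] [NumberField K] (p : K × Tw K), Ok p →
  p.1 ≠ -1 → p.1 ≠ 2 → 2 * p.1 ≠ 1 → p.1 ^ 2 - p.1 + 1 ≠ 0 →
  {p' : K × Tw K | Ok p' ∧ cl (crv p') = cl (crv p)}.ncard = 6

/-- package INV: invariance under the changes of variables (`SemiAt`, `GoodAt` by composition; the
invariant as in `Pool.Agent.P8H82.WS.j_change`), and the invariant of the curve of the family -/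
def S_INV : Prop := ∀ (K : Type) [Field K] [NumberField K],
  (∀ (E : WeierstrassCurve K) (C : WeierstrassCurve.VariableChange K),
    cond (C • E) = cond E ∧ (C • E).c₄ ^ 3 / (C • E).Δ = E.c₄ ^ 3 / E.Δ ∧
      ((∃ a b, Pm (C • E) a b) ↔ ∃ a b, Pm E a b)) ∧
  ∀ p : K × Tw K, Ok p → (crv p).Δ ≠ 0 ∧ (∃ a b, Pm (crv p) a b) ∧
    (crv p).c₄ ^ 3 / (crv p).Δ = Pool.Agent.P8H82.WS.jL p.1

end Pool.Agent.P8H82.FF
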