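import Mathlib
import Pool.Agent.P8H82.FF.Law
import Pool.Agent.P8H82.FF.Stm3

set_option autoImplicit false

/-!
# Project FF: from the pairs to the isomorphism classes
-/

namespace Pool.Agent.P8H82.FF

open NumberField IsDedekindDomain MeasureTheory Filter Topology
open Pool.Agent.P8H82.JG (Gold Triple Rep rad dens shp Cnd dl nP ord c0 KK Reg emb lam mass lam_pos
  S_BETA S_RAD S_REG S_VOL)
open Pool.Agent.P8H82.WS (lamT jL S_LAM lamT_unit hA QQ aa aC S_QQ S_JT S_IPL S_TWO inc_aa jr)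
open Pool.Agent.Y729.AH (EE Pm AA cond T2 Iso cl)
open Pool.Agent.TH876.Loc (nn hgt sp nn_pos one_le_nn nn_union nn_mono)

/-- counting with fibres of six elements, with exceptions -/
theorem six_count {A B : Type} (f : A → B) (SA : Set A) (SB : Set B) (SE : Set A) (hA : SA.Finite)
    (hE : SE.Finite) (h1 : ∀ a ∈ SA, f a ∈ SB) (h2 : ∀ b ∈ SB, ∃ a ∈ SA, f a = b)
    (h3 : ∀ b ∈ SB, {a | a ∈ SA ∧ f a = b}.ncard ≤ 6)
    (h4 : ∀ b ∈ SB, {a | a ∈ SA ∧ f a = b}.ncard ≠ 6 → ∃ a ∈ SE, f a = b) :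
    (SA.ncard : ℝ) ≤ 6 * SB.ncard ∧ 6 * (SB.ncard : ℝ) ≤ SA.ncard + 6 * SE.ncard := by
  classical
  have hB : SB.Finite := (hA.image f).subset fun b hb => by
    obtain ⟨a, ha, rfl⟩ := h2 b hb
    exact ⟨a, ha, rfl⟩
  have e := Finset.card_eq_sum_card_fiberwise (f := f) (s := hA.toFinset) (t := hB.toFinset) (by
    intro a ha
    rw [Set.Finite.coe_toFinset] at ha
    rw [Set.Finite.coe_toFinset]
    exact h1 a ha)
  have hfib : ∀ b, (hA.toFinset.filter fun a => f a = b).card = {a | a ∈ SA ∧ f a = b}.ncard := by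
    intro b
    rw [← Set.ncard_coe_finset]
    congr 1
    ext a
    simp
  have e1 : SA.ncard = ∑ b ∈ hB.toFinset, {a | a ∈ SA ∧ f a = b}.ncard := by
    rw [Set.ncard_eq_toFinset_card SA hA, e]
    exact Finset.sum_congr rfl fun b _ => hfib b
  have e2 : SB.ncard = hB.toFinset.card := Set.ncard_eq_toFinset_card SB hB
  constructor
  · have : SA.ncard ≤ 6 * SB.ncard := by
      rw [e1, e2, mul_comm, ← smul_eq_mul]
      refine Finset.sum_le_card_nsmul _ _ _ fun b hb => h3 b ?_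
      rwa [Set.Finite.mem_toFinset] at hb
    exact_mod_cast this
  · have hF : (hB.toFinset.filter fun b => ∃ a ∈ SE, f a = b).card ≤ SE.ncard := by
      rw [Set.ncard_eq_toFinset_card SE hE]
      refine (Finset.card_le_card ?_).trans (Finset.card_image_le (s := hE.toFinset) (f := f))
      intro b hb
      rw [Finset.mem_filter] at hb
      obtain ⟨-, a, ha, hab⟩ := hb
      rw [Finset.mem_image]
      exact ⟨a, by rwa [Set.Finite.mem_toFinset], hab⟩
    have : 6 * SB.ncard ≤ SA.ncard + 6 * SE.ncard := by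
      calc 6 * SB.ncard = ∑ b ∈ hB.toFinset, 6 := by
            rw [e2, Finset.sum_const, smul_eq_mul, mul_comm]
        _ ≤ ∑ b ∈ hB.toFinset, ({a | a ∈ SA ∧ f a = b}.ncard +
              if ∃ a ∈ SE, f a = b then 6 else 0) := by
            refine Finset.sum_le_sum fun b hb => ?_
            rw [Set.Finite.mem_toFinset] at hb
            by_cases h6 : {a | a ∈ SA ∧ f a = b}.ncard = 6
            · rw [h6]
              exact Nat.le_add_right _ _
            · rw [if_pos (h4 b hb h6)]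
              exact Nat.le_add_left _ _
        _ = SA.ncard + 6 * (hB.toFinset.filter fun b => ∃ a ∈ SE, f a = b).card := by
            rw [Finset.sum_add_distrib, ← e1, ← Finset.sum_filter, Finset.sum_const, smul_eq_mul,
              mul_comm 6]
        _ ≤ SA.ncard + 6 * SE.ncard := by
            have := Nat.mul_le_mul_left 6 hF
            omega
    exact_mod_cast this

variable {K : Type} [Field K] [NumberField K]

/-- the class has full two-torsion -/
def Okq (q : Iso K) : Prop := ∃ a b, Pm q.out a b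

/-- the conductor of the surface of a class, outside two -/
noncomputable def NFq (q : Iso K) : ℝ := 25 * cond q.out

/-- the invariant of a class -/
noncomputable def jq (q : Iso K) : K := q.out.c₄ ^ 3 / q.out.Δ

/-- the height of the surface with the invariant `j` -/
noncomputable def hJ (j : K) : ℝ :=
  (∑ᶠ v : HeightOneSpectrum (𝓞 K), Real.log (max (FinitePlace.mk v j) 1) +
    ∑ w : InfinitePlace K, (w.mult : ℝ) * aC (w.embedding j)) / 12

/-- the representative of the class of a curve -/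
theorem out_change (E : WeierstrassCurve K) :
    ∃ C : WeierstrassCurve.VariableChange K, (cl E).out = C • E := by
  have h : cl (cl E).out = cl E := Quotient.out_eq' (cl E)
  obtain ⟨C, hC⟩ := Pool.Agent.Y729.AH.cl_eq.1 h
  exact ⟨C, hC.symm⟩

section iso

variable (hIN : S_INV)
include hIN

theorem Okq_cl (p : K × Tw K) (hp : Ok p) : Okq (cl (crv p)) ∧ NFq (cl (crv p)) = NF p ∧
    jq (cl (crv p)) = jL p.1 := by
  obtain ⟨C, hC⟩ := out_change (crv p)
  obtain ⟨h1, h2⟩ := hIN K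
  obtain ⟨a1, a2, a3⟩ := h1 (crv p) C
  obtain ⟨b1, b2, b3⟩ := h2 p hp
  unfold Okq NFq jq NF
  rw [hC]
  exact ⟨a3.2 b2, by rw [a1], by rw [a2, b3]⟩

variable (hFB : S_FIB)
include hFB

theorem exi_pair (q : Iso K) (hq : Okq q) : ∃ p : K × Tw K, Ok p ∧ cl (crv p) = q := by
  obtain ⟨a, b, h⟩ := hq
  obtain ⟨p, h1, -, h2⟩ := (hFB K).1 q.out a b h
  exact ⟨p, h1, h2.trans (Quotient.out_eq' q)⟩

theorem NFq_one (q : Iso K) (hq : Okq q) : 1 ≤ NFq q := by
  obtain ⟨p, hp, rfl⟩ := exi_pair hIN hFB q hq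
  rw [(Okq_cl hIN p hp).2.1]
  exact NF_one p hp

theorem fin_q (hfin : ∀ X : ℝ, {p : K × Tw K | Ok p ∧ cond (crv p) ≤ X}.Finite) (X : ℝ) :
    {q : Iso K | Okq q ∧ NFq q ≤ X}.Finite := by
  refine ((hfin (X / 25)).image fun p => cl (crv p)).subset ?_
  rintro q ⟨h1, h2⟩
  obtain ⟨p, hp, rfl⟩ := exi_pair hIN hFB q h1
  rw [(Okq_cl hIN p hp).2.1] at h2
  refine ⟨p, ⟨hp, ?_⟩, rfl⟩
  unfold NF at h2
  rw [le_div_iff₀ (by norm_num)]
  linarith

/-- the transfer of limits -/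
theorem iso_lim (hSX : S_SIX) {σ τ : K →+* ℝ} (hG : Gold K σ τ)
    (hfin : ∀ X : ℝ, {p : K × Tw K | Ok p ∧ cond (crv p) ≤ X}.Finite)
    (hex : Tendsto (fun X : ℝ => ({p : K × Tw K | Ok p ∧ NF p ≤ X ∧
      (p.1 = -1 ∨ p.1 = 2 ∨ 2 * p.1 = 1)}.ncard : ℝ) / X ^ ((2 : ℝ) / 3)) atTop (𝓝 0))
    (P : Iso K → Prop) (L : ℝ)
    (h : Tendsto (fun X : ℝ => ({p : K × Tw K | Ok p ∧ NF p ≤ X ∧ P (cl (crv p))}.ncard : ℝ) /
      X ^ ((2 : ℝ) / 3)) atTop (𝓝 L)) :
    Tendsto (fun X : ℝ => ({q : Iso K | Okq q ∧ NFq q ≤ X ∧ P q}.ncard : ℝ) /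
      X ^ ((2 : ℝ) / 3)) atTop (𝓝 (L / 6)) := by
  have hfX : ∀ X : ℝ, {p : K × Tw K | Ok p ∧ NF p ≤ X}.Finite := by
    intro X
    refine (hfin (X / 25)).subset fun p hp => ⟨hp.1, ?_⟩
    have := hp.2
    unfold NF at this
    rw [le_div_iff₀ (by norm_num)]
    linarith
  have hno : ∀ l : K, l ^ 2 - l + 1 ≠ 0 := by
    intro l h0
    have h1 := congrArg σ h0
    rw [map_add, map_sub, map_pow, map_one, map_zero] at h1
    nlinarith [sq_nonneg (σ l - 1 / 2)]
  have key : ∀ X : ℝ, (({p : K × Tw K | Ok p ∧ NF p ≤ X ∧ P (cl (crv p))}.ncard : ℕ) : ℝ) ≤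
        6 * (({q : Iso K | Okq q ∧ NFq q ≤ X ∧ P q}.ncard : ℕ) : ℝ) ∧
      6 * (({q : Iso K | Okq q ∧ NFq q ≤ X ∧ P q}.ncard : ℕ) : ℝ) ≤
        (({p : K × Tw K | Ok p ∧ NF p ≤ X ∧ P (cl (crv p))}.ncard : ℕ) : ℝ) + 6 *
        (({p : K × Tw K | Ok p ∧ NF p ≤ X ∧ (p.1 = -1 ∨ p.1 = 2 ∨ 2 * p.1 = 1)}.ncard : ℕ) : ℝ) := by
    intro X
    have hset : ∀ q : Iso K, NFq q ≤ X → P q →
        {p | p ∈ {p : K × Tw K | Ok p ∧ NF p ≤ X ∧ P (cl (crv p))} ∧ cl (crv p) = q} =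
          {p : K × Tw K | Ok p ∧ cl (crv p) = q} := by
      intro q h1 h2
      ext p
      constructor
      · rintro ⟨⟨h3, -, -⟩, h4⟩
        exact ⟨h3, h4⟩
      · rintro ⟨h3, rfl⟩
        rw [(Okq_cl hIN p h3).2.1] at h1
        exact ⟨⟨h3, h1, h2⟩, rfl⟩
    refine six_count (fun p => cl (crv p)) _ _ _
      ((hfX X).subset fun p hp => ⟨hp.1, hp.2.1⟩) ((hfX X).subset fun p hp => ⟨hp.1, hp.2.1⟩)
      ?_ ?_ ?_ ?_
    · rintro p ⟨h1, h2, h3⟩
      obtain ⟨k1, k2, -⟩ := Okq_cl hIN p h1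
      exact ⟨k1, k2.trans_le h2, h3⟩
    · rintro q ⟨h1, h2, h3⟩
      obtain ⟨p, hp, rfl⟩ := exi_pair hIN hFB q h1
      rw [(Okq_cl hIN p hp).2.1] at h2
      exact ⟨p, ⟨hp, h2, h3⟩, rfl⟩
    · rintro q ⟨h1, h2, h3⟩
      rw [hset q h2 h3]
      exact ((hFB K).2 q).2
    · rintro q ⟨h1, h2, h3⟩ hne
      rw [hset q h2 h3] at hne
      obtain ⟨p, hp, rfl⟩ := exi_pair hIN hFB q h1
      have h2' := h2
      rw [(Okq_cl hIN p hp).2.1] at h2'
      refine ⟨p, ⟨hp, h2', ?_⟩, rfl⟩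
      by_contra hcon
      rw [not_or, not_or] at hcon
      exact hne (hSX K p hp hcon.1 hcon.2.1 hcon.2.2 (hno _))
  have hup := (h.add (hex.const_mul 6)).div_const 6
  have hlo := h.div_const 6
  rw [mul_zero, add_zero] at hup
  refine tendsto_of_tendsto_of_tendsto_of_le_of_le' hlo hup ?_ ?_
  · filter_upwards [eventually_gt_atTop (0 : ℝ)] with X hX
    have hp : (0 : ℝ) < X ^ ((2 : ℝ) / 3) := by positivity
    rw [div_div, div_le_div_iff₀ (by positivity) hp]
    have := mul_le_mul_of_nonneg_right (key X).1 hp.le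
    linarith
  · filter_upwards [eventually_gt_atTop (0 : ℝ)] with X hX
    have hp : (0 : ℝ) < X ^ ((2 : ℝ) / 3) := by positivity
    rw [← mul_div_assoc, ← add_div, div_div, div_le_div_iff₀ hp (by positivity)]
    have := mul_le_mul_of_nonneg_right (key X).2 hp.le
    linarith

end iso

end Pool.Agent.P8H82.FF
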