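import Pool.Agent.P8H82.FF.Stm2
import Pool.Agent.P8H56.JG.Rad
import Pool.Agent.Y729.AH.TwCond

set_option autoImplicit false

/-!
# Project FF (helper82), package CONDX: the conductor
-/

namespace Pool.Agent.P8H82.FF.C52

open NumberField IsDedekindDomain
open Pool.Agent.P8H82.WS Pool.Agent.P8H82.JG Pool.Agent.P8H82.FF
open Pool.Agent.H691R3 (fv fv_na)
open Pool.Agent.TH876.Loc
open Pool.Agent.Y729.AH
open Pool.Agent.P8H56.JG (ord_mul ord_prod ord_ext mem_pow_iff)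

variable {K : Type} [Field K] [NumberField K]

theorem fv_lt_int (v : Pr K) (x : 𝓞 K) : fv v (x : K) < 1 ↔ x ∈ v.asIdeal :=
  FinitePlace.norm_lt_one_iff_mem K v x

theorem fv_one_int (v : Pr K) (x : 𝓞 K) : fv v (x : K) = 1 ↔ x ∉ v.asIdeal :=
  FinitePlace.norm_eq_one_iff_notMem K v x

theorem tr_ne {t : 𝓞 K × 𝓞 K × 𝓞 K} (ht : Triple t) :
    (t.1 : K) ≠ 0 ∧ (t.2.1 : K) ≠ 0 ∧ (t.2.2 : K) ≠ 0 ∧ (t.1 : K) + t.2.1 + t.2.2 = 0 := by
  have hn := ht.ne
  refine ⟨?_, ?_, ?_, ?_⟩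
  · rw [ne_eq, RingOfIntegers.coe_eq_zero_iff]
    intro h; apply hn; rw [h]; ring
  · rw [ne_eq, RingOfIntegers.coe_eq_zero_iff]
    intro h; apply hn; rw [h]; ring
  · rw [ne_eq, RingOfIntegers.coe_eq_zero_iff]
    intro h; apply hn; rw [h]; ring
  · have := congrArg (fun x : 𝓞 K => (x : K)) ht.sum
    simpa using this

theorem tr_cop {t : 𝓞 K × 𝓞 K × 𝓞 K} (ht : Triple t) (v : Pr K) :
    ¬ (t.1 ∈ v.asIdeal ∧ t.2.1 ∈ v.asIdeal) ∧ ¬ (t.1 ∈ v.asIdeal ∧ t.2.2 ∈ v.asIdeal) ∧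
      ¬ (t.2.1 ∈ v.asIdeal ∧ t.2.2 ∈ v.asIdeal) := by
  have main : ¬ (t.1 ∈ v.asIdeal ∧ t.2.1 ∈ v.asIdeal ∧ t.2.2 ∈ v.asIdeal) := by
    rintro ⟨h1, h2, h3⟩
    apply v.isPrime.ne_top
    rw [← top_le_iff, ← ht.cop, Ideal.span_le]
    rintro x (rfl | rfl | rfl)
    · exact h1
    · exact h2
    · exact h3
  have hs := ht.sum
  refine ⟨?_, ?_, ?_⟩
  · rintro ⟨h1, h2⟩
    refine main ⟨h1, h2, ?_⟩
    have : t.2.2 = -(t.1 + t.2.1) := by linear_combination hs
    rw [this]; exact neg_mem (add_mem h1 h2)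
  · rintro ⟨h1, h2⟩
    refine main ⟨h1, ?_, h2⟩
    have : t.2.1 = -(t.1 + t.2.2) := by linear_combination hs
    rw [this]; exact neg_mem (add_mem h1 h2)
  · rintro ⟨h1, h2⟩
    refine main ⟨?_, h1, h2⟩
    have : t.1 = -(t.2.1 + t.2.2) := by linear_combination hs
    rw [this]; exact neg_mem (add_mem h1 h2)

theorem lam_facts {t : 𝓞 K × 𝓞 K × 𝓞 K} (ht : Triple t) :
    lamT t ≠ 0 ∧ lamT t ≠ 1 ∧ -(lamT t) = (t.1 : K) / t.2.2 ∧
      -(lamT t) + 1 = -((t.2.1 : K) / t.2.2) ∧ Pt (-(lamT t)) := by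
  obtain ⟨ha, hb, hc, hs⟩ := tr_ne ht
  have h1 : -(lamT t) = (t.1 : K) / t.2.2 := by
    unfold lamT; ring
  have h2 : -(lamT t) + 1 = -((t.2.1 : K) / t.2.2) := by
    rw [h1]; field_simp; linear_combination hs
  have h3 : -(lamT t) ≠ 0 := by rw [h1]; exact div_ne_zero ha hc
  have h4 : -(lamT t) + 1 ≠ 0 := by rw [h2]; exact neg_ne_zero.2 (div_ne_zero hb hc)
  refine ⟨neg_ne_zero.1 h3, ?_, h1, h2, h3, h4⟩
  intro h
  apply h4; rw [h]; ring

theorem mem_sp_tr {t : 𝓞 K × 𝓞 K × 𝓞 K} (ht : Triple t) (v : Pr K) :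
    v ∈ sp (-(lamT t)) ↔ t.1 * t.2.1 * t.2.2 ∈ v.asIdeal := by
  obtain ⟨ha, hb, hc, hs⟩ := tr_ne ht
  obtain ⟨_, _, h1, h2, hpt⟩ := lam_facts ht
  obtain ⟨c1, c2, c3⟩ := tr_cop ht v
  rw [mem_sp hpt, h2, h1, (fv v).map_neg, map_div₀, map_div₀]
  have pc := (fv v).pos hc
  rw [div_eq_one_iff_eq pc.ne', div_eq_one_iff_eq pc.ne']
  constructor
  · intro h
    by_contra hn
    apply h
    have hp := v.isPrime
    have ka : t.1 ∉ v.asIdeal := fun h' =>
      hn (Ideal.mul_mem_right _ _ (Ideal.mul_mem_right _ _ h'))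
    have kb : t.2.1 ∉ v.asIdeal := fun h' =>
      hn (Ideal.mul_mem_right _ _ (Ideal.mul_mem_left _ _ h'))
    have kc : t.2.2 ∉ v.asIdeal := fun h' => hn (Ideal.mul_mem_left _ _ h')
    rw [(fv_one_int v _).2 ka, (fv_one_int v _).2 kb, (fv_one_int v _).2 kc]
    exact ⟨rfl, rfl⟩
  · rintro hn ⟨e1, e2⟩
    rcases v.isPrime.mem_or_mem hn with h | h
    · rcases v.isPrime.mem_or_mem h with h | h
      · have h3 := (fv_lt_int v _).2 h
        rw [e1, fv_lt_int] at h3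
        exact c2 ⟨h, h3⟩
      · have h3 := (fv_lt_int v _).2 h
        rw [e2, fv_lt_int] at h3
        exact c3 ⟨h, h3⟩
    · have h3 := (fv_lt_int v _).2 h
      rw [← e1, fv_lt_int] at h3
      exact c2 ⟨h3, h⟩

open Classical in
theorem nn_union_disj {s D : Finset (Pr K)} (h : Disjoint s D) : nn (s ∪ D) = nn s * nn D := by
  classical
  unfold nn
  rw [Finset.prod_union h]

theorem nn_norm (s : Finset (Pr K)) :
    (Ideal.absNorm (∏ Q ∈ s, Q.asIdeal) : ℝ) = nn s := by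
  rw [map_prod]
  push_cast
  rfl

theorem condx : S_CONDX := by
  classical
  intro K _ _ σ τ hG t d D w ht hD hw hCX
  obtain ⟨l0, l1, h1, h2, hpt⟩ := lam_facts ht
  have hδ : rp d ≠ 0 := Units.ne_zero _
  have hp : Pm (crv (lamT t, d)) (rp d) (rp d * lamT t) := by
    apply pm_EE hδ (mul_ne_zero hδ l0)
    intro h
    apply l1
    have h3 : rp d * (lamT t - 1) = 0 := by linear_combination -h
    rcases mul_eq_zero.1 h3 with h4 | h4
    · exact absurd h4 hδ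
    · exact sub_eq_zero.1 h4
  have hE : (crv (lamT t, d)).Δ ≠ 0 := by
    rw [(pm_disc hp).1]
    have h3 := hp.2.2.1
    have h4 : rp d - rp d * lamT t ≠ 0 := sub_ne_zero.2 h3
    have h5 := hp.2.1
    have h6 : (16 : K) ≠ 0 := by norm_num
    exact mul_ne_zero h6 (mul_ne_zero (mul_ne_zero (pow_ne_zero _ hδ) (pow_ne_zero _ h5))
      (pow_ne_zero _ h4))
  have hcond := cond_eq hE hp
  have e1 : -(rp d * lamT t / rp d) = -(lamT t) := by field_simp
  rw [e1, hD] at hcond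
  have hDT : Disjoint D (T2 K) := by
    rw [Finset.disjoint_left]
    intro v hv hv2
    rw [← hD, mem_AA hE] at hv
    rw [mem_T2] at hv2
    exact hv2 hv.2
  set x : 𝓞 K := t.1 * t.2.1 * t.2.2 with hx
  have hx0 : x ≠ 0 := ht.ne
  have hxspan : Ideal.span {x} ≠ (⊥ : Ideal (𝓞 K)) := by simpa using hx0
  set s : Finset (Pr K) := sp (-(lamT t)) \ (D ∪ T2 K) with hs
  have hunion : (sp (-(lamT t)) \ T2 K) ∪ D = s ∪ D := by
    ext v
    simp only [hs, Finset.mem_union, Finset.mem_sdiff, not_or]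
    constructor
    · rintro (⟨a, b⟩ | a)
      · by_cases hv : v ∈ D
        · exact Or.inr hv
        · exact Or.inl ⟨a, hv, b⟩
      · exact Or.inr a
    · rintro (⟨a, b, c⟩ | a)
      · exact Or.inl ⟨a, c⟩
      · exact Or.inr a
  have hdisj : Disjoint s D := by
    rw [Finset.disjoint_left]
    intro v hv hv2
    rw [hs, Finset.mem_sdiff, Finset.mem_union, not_or] at hv
    exact hv.2.1 hv2
  -- the ideal identity
  have hxneg : t.1 * t.2.1 * (t.1 + t.2.1) = -x := by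
    have : t.2.2 = -(t.1 + t.2.1) := by linear_combination ht.sum
    rw [hx, this]; ring
  have hid : w * ∏ Q ∈ s, Q.asIdeal = Ideal.span {x} := by
    have hpne : (∏ Q ∈ s, Q.asIdeal) ≠ 0 := Finset.prod_ne_zero_iff.2 fun Q _ => Q.ne_bot
    apply ord_ext (mul_ne_zero hw hpne) hxspan
    intro P
    rw [ord_mul P hw (ord_prod P s).1, (ord_prod P s).2]
    have hC := hCX P
    by_cases hPT : P ∈ D ∪ T2 K
    · have hPs : P ∉ s := by
        rw [hs, Finset.mem_sdiff, not_and, not_not]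
        exact fun _ => hPT
      rw [if_neg hPs, add_zero]
      obtain ⟨_, k2, k3⟩ := hC.1 hPT
      rw [hxneg, neg_mem_iff, mem_pow_iff P hx0] at k2 k3
      omega
    · obtain ⟨_, k2, k3⟩ := hC.2 hPT
      rw [hxneg, neg_mem_iff, mem_pow_iff P hx0] at k2 k3
      have hPs : P ∈ s ↔ 1 ≤ ord P (Ideal.span {x}) := by
        rw [hs, Finset.mem_sdiff, mem_sp_tr ht, ← mem_pow_iff P hx0, pow_one]
        exact ⟨fun h => h.1, fun h => ⟨h, hPT⟩⟩
      split_ifs with h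
      · rw [hPs] at h
        by_cases h0 : ord P w = 0
        · omega
        · have := k3 h0
          omega
      · rw [hPs] at h
        by_cases h0 : ord P w = 0
        · omega
        · have := k3 h0
          omega
  have hnorm : (Ideal.absNorm w : ℝ) * nn s = (Ideal.absNorm (Ideal.span {x}) : ℝ) := by
    rw [← hid, map_mul, ← nn_norm]
    push_cast
    rfl
  rw [hcond, hunion, nn_union_disj hdisj, ← hnorm]
  ring

end Pool.Agent.P8H82.FF.C52
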