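import Mathlib
import Pool.Agent.P8H82.FF.Cls

set_option autoImplicit false

/-!
# Project FF: the family of the isomorphism classes
-/

namespace Pool.Agent.P8H82.FF

open NumberField IsDedekindDomain MeasureTheory Filter Topology
open Pool.Agent.P8H82.JG (Gold Triple Rep rad dens shp Cnd dl nP ord c0 KK Reg emb lam mass lam_pos
  S_BETA S_RAD S_REG S_VOL S_C0)
open Pool.Agent.P8H82.WS (lamT jL S_LAM lamT_unit hA QQ aa aC S_QQ S_JT S_IPL S_TWO inc_aa jr I0
  I0_pos I0_eq s_beta s_gg s_law Tu gen_final)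
open Pool.Agent.P8H82.PH (Fam Gn Gn_lt exists_mu)
open Pool.Agent.Y729.AH (EE Pm AA cond T2 Iso cl)
open Pool.Agent.TH876.Loc (nn hgt sp nn_pos one_le_nn nn_union nn_mono)

variable {K : Type} [Field K] [NumberField K]

/-- the constant of the number of the surfaces -/
noncomputable def AFc (K : Type) [Field K] [NumberField K] : ℝ :=
  4 / 3 * (1 / 25 : ℝ) ^ ((2 : ℝ) / 3) * lam * ((∑' i : Ty K, wt K i) * I0)

/-- the distribution function -/
noncomputable def FFc (K : Type) [Field K] [NumberField K] (x : ℝ) : ℝ :=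
  (∑' i : Ty K, wt K i * mass (QQ aa (12 * x + cF i))) / ∑' i : Ty K, wt K i * I0

theorem wt_summable (hs : Summable (kap K)) : Summable (wt K) := by
  have h25 : (0 : ℝ) < (1 / 25 : ℝ) ^ ((2 : ℝ) / 3) := Real.rpow_pos_of_pos (by norm_num) _
  have hl := lam_pos
  have h := hs.mul_left (8 * (1 / 25 : ℝ) ^ ((2 : ℝ) / 3) * lam)⁻¹
  refine h.congr fun i => ?_
  unfold kap
  have : (8 * (1 / 25 : ℝ) ^ ((2 : ℝ) / 3) * lam) ≠ 0 := by positivity
  field_simp

/-- some weight is positive -/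
theorem wt_pos (hC0 : S_C0) (hDN : S_DENX) : ∃ i : Ty K, 0 < wt K i := by
  classical
  have h2 : (Ideal.span {(2 : 𝓞 K)}) ≠ ⊥ := by
    rw [Ne, Ideal.span_singleton_eq_bot]
    norm_num
  refine ⟨(∅, Ideal.span {2}), ?_⟩
  unfold wt
  have hn : ¬ ((∃ P ∈ (∅ : Finset (HeightOneSpectrum (𝓞 K))), P ∈ T2 K) ∨
      (Ideal.span {(2 : 𝓞 K)}) = ⊥) := by
    rintro (⟨P, hP, -⟩ | h)
    · exact absurd hP (Finset.notMem_empty _)
    · exact h2 h
  rw [if_neg hn]
  have hN := norm_pos h2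
  have hnn := nn_pos (∅ : Finset (HeightOneSpectrum (𝓞 K)))
  refine mul_pos (mul_pos (Real.rpow_pos_of_pos hnn _) (Real.rpow_pos_of_pos hN _)) ?_
  unfold dn
  refine mul_pos (hC0 K).1 ?_
  refine finprod_induction (fun x : ℝ => 0 < x) one_pos (fun a b ha hb => mul_pos ha hb)
    fun P => ?_
  have hq := Pool.Agent.P8H82.JG.two_le_nP P
  have hdl := Pool.Agent.P8H60.JG.dl_zero_pos hq
  refine finprod_induction (fun x : ℝ => 0 < x) one_pos (fun a b ha hb => mul_pos ha hb)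
    fun hP => ?_
  refine div_pos ?_ hdl
  have h1q : 1 / nP P < 1 := by
    rw [div_lt_one (by linarith)]
    linarith
  unfold dX
  split_ifs with hT
  · have hmem : P ∈ T2 K := by
      rw [Finset.empty_union] at hT
      exact hT
    have hle : (Ideal.span {(2 : 𝓞 K)}) ≤ P.asIdeal := by
      rw [Pool.Agent.Y729.AH.mem_T2] at hmem
      rw [Ideal.span_singleton_le_iff_mem]
      by_contra hno
      apply hmem
      rw [Pool.Agent.Y729.FW.fv_eq_one_iff]
      have h3 : ¬ P.valuation K ((2 : 𝓞 K) : K) < 1 := by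
        rw [P.valuation_lt_one_iff_mem (K := K)]
        exact hno
      have h4 : P.valuation K ((2 : 𝓞 K) : K) ≤ 1 := P.valuation_le_one (K := K) 2
      have h5 : P.valuation K ((2 : 𝓞 K) : K) = 1 := le_antisymm h4 (not_lt.1 h3)
      rw [← h5]
      exact congrArg _ (map_ofNat (algebraMap (𝓞 K) K) 2).symm
    have hne : ord P (Ideal.span {(2 : 𝓞 K)}) ≠ 0 :=
      (Pool.Agent.P8H60.JG.ord_ne_zero_iff P h2).2 hle
    unfold dx
    simp only
    rw [if_neg hne]
    have : 0 < 1 - 1 / nP P := by linarith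
    positivity
  · simp only
    by_cases hne : ord P (Ideal.span {(2 : 𝓞 K)}) = 0
    · rw [hne]
      exact hdl
    · unfold dl
      rw [if_neg hne]
      have : 0 < 1 - 1 / nP P := by linarith
      positivity

section fin

variable (hs : Summable (wt K)) (hDN : S_DENX) (hC0 : S_C0)
include hs hDN hC0

theorem FFc_props : Continuous (FFc K) ∧ Monotone (FFc K) ∧ (∀ x, FFc K x < 1) ∧
    Tendsto (FFc K) atBot (𝓝 0) ∧ Tendsto (FFc K) atTop (𝓝 1) := by
  obtain ⟨g1, g2, g3, g4, g5⟩ := s_gg aa inc_aa s_beta.1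
  exact s_law (Ty K) (wt K) cF (fun y => ∫ x in QQ aa y, dens x.1 * dens x.2) I0
    (2 * aa 1728) (wt_nonneg hDN) hs (wt_pos hC0 hDN) I0_pos g1 g2 g3 g4 g5

theorem wt_tsum_pos : 0 < ∑' i : Ty K, wt K i := by
  obtain ⟨i, hi⟩ := wt_pos (K := K) hC0 hDN
  exact hs.tsum_pos (wt_nonneg hDN) i hi

theorem AFc_pos : 0 < AFc K := by
  have h1 := wt_tsum_pos hs hDN hC0
  have h2 := I0_pos
  have h3 := lam_pos
  unfold AFc
  positivity

end fin

theorem kap_sum (m : Ty K → ℝ) : ∑' i : Ty K, kap K i * m i =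
    8 * (1 / 25 : ℝ) ^ ((2 : ℝ) / 3) * lam * ∑' i : Ty K, wt K i * m i := by
  rw [← tsum_mul_left]
  refine tsum_congr fun i => ?_
  unfold kap
  ring

/-- all the packages -/
structure Pk : Prop where
  abs : S_ABS
  den : S_DENX
  wex : S_WEX
  fin : S_FINT
  tail : S_TAILX
  asy : S_ASYX
  reg : S_REG
  vol : S_VOL
  gpt : S_GPTS
  lam : S_LAM
  twc : S_TWC
  cnd : S_CONDX
  two : S_TWO
  htx : S_HTX
  ipl : S_IPL
  jt : S_JT
  qq : S_QQ
  c0 : S_C0
  inv : S_INV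
  fib : S_FIB
  six : S_SIX
  eul : S_EULX

theorem sum_wt (k : Pk) {σ τ : K →+* ℝ} (hG : Gold K σ τ) : Summable (wt K) :=
  wt_summable (all_lim k.abs k.den k.wex k.fin k.tail k.asy k.reg k.vol k.gpt k.lam k.twc k.cnd
    hG).1

/-- the asymptotic number of the classes -/
theorem tot_q (k : Pk) {σ τ : K →+* ℝ} (hG : Gold K σ τ) :
    Tendsto (fun X : ℝ => ({q : Iso K | Okq q ∧ NFq q ≤ X}.ncard : ℝ) / X ^ ((2 : ℝ) / 3)) atTop
      (𝓝 (AFc K)) := by
  have h := iso_lim k.inv k.fib k.six hG (k.tail K σ τ hG).1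
    (exc_p k.abs k.den k.wex k.fin k.tail k.asy k.reg k.vol k.gpt k.lam k.twc k.cnd hG)
    (fun _ => True) (∑' i, kap K i * mass Set.univ) (by
      simpa only [and_true] using
        tot_p k.abs k.den k.wex k.fin k.tail k.asy k.reg k.vol k.gpt k.lam k.twc k.cnd hG)
  have e : (∑' i : Ty K, kap K i * mass Set.univ) / 6 = AFc K := by
    rw [kap_sum, tsum_mul_right, ← I0_eq]
    unfold AFc
    ring
  rw [e] at h
  simpa only [and_true] using h

/-- the law of the height for the classes -/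
theorem law_q (k : Pk) {σ τ : K →+* ℝ} (hG : Gold K σ τ) (x : ℝ) :
    Tendsto (fun X : ℝ => ({q : Iso K | Okq q ∧ NFq q ≤ X ∧
      hJ (jq q) ≤ 1 / 6 * Real.log (NFq q) + x}.ncard : ℝ) / X ^ ((2 : ℝ) / 3)) atTop
      (𝓝 (AFc K * FFc K x)) := by
  have h0 := law_p k.abs k.den k.wex k.fin k.tail k.asy k.reg k.vol k.gpt k.lam k.twc k.cnd
    k.two k.htx k.ipl k.jt k.qq hG x
  have h := iso_lim k.inv k.fib k.six hG (k.tail K σ τ hG).1
    (exc_p k.abs k.den k.wex k.fin k.tail k.asy k.reg k.vol k.gpt k.lam k.twc k.cnd hG)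
    (fun q => hJ (jq q) ≤ 1 / 6 * Real.log (NFq q) + x)
    (∑' i, kap K i * mass (QQ aa (12 * x + cF i))) (by
      refine h0.congr fun X => ?_
      congr 3
      ext p
      constructor
      · rintro ⟨h1, h2, h3⟩
        obtain ⟨-, k2, k3⟩ := Okq_cl k.inv p h1
        refine ⟨h1, h2, ?_⟩
        rw [k2, k3]
        exact h3
      · rintro ⟨h1, h2, h3⟩
        obtain ⟨-, k2, k3⟩ := Okq_cl k.inv p h1
        refine ⟨h1, h2, ?_⟩
        rw [k2, k3] at h3
        exact h3)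
  have e : (∑' i : Ty K, kap K i * mass (QQ aa (12 * x + cF i))) / 6 = AFc K * FFc K x := by
    have h1 := (wt_tsum_pos (sum_wt k hG) k.den k.c0).ne'
    have h2 := I0_pos.ne'
    rw [kap_sum]
    unfold AFc FFc
    rw [tsum_mul_right]
    field_simp
    ring
  rw [e] at h
  exact h

/-- the family -/
theorem fam_q (k : Pk) {σ τ : K →+* ℝ} (hG : Gold K σ τ)
    {μ : Measure ℝ} (hμ : IsProbabilityMeasure μ) (hF : ∀ x, μ.real (Set.Iic x) = FFc K x) :
    Fam {q : Iso K // Okq q} (fun i => NFq i.1) (fun i => hJ (jq i.1) - Real.log (NFq i.1) / 6)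
      ((2 : ℝ) / 3) (AFc K) μ := by
  have hcard : ∀ (X : ℝ) (P : Iso K → Prop),
      {i : {q : Iso K // Okq q} | NFq i.1 ≤ X ∧ P i.1}.ncard =
        {q : Iso K | Okq q ∧ NFq q ≤ X ∧ P q}.ncard := by
    intro X P
    rw [← Set.ncard_image_of_injective _ Subtype.val_injective]
    congr 1
    ext l
    constructor
    · rintro ⟨i, ⟨h1, h2⟩, rfl⟩
      exact ⟨i.2, h1, h2⟩
    · rintro ⟨h1, h2, h3⟩
      exact ⟨⟨l, h1⟩, ⟨h2, h3⟩, rfl⟩
  have hs := sum_wt k hG
  refine ⟨fun i => NFq_one k.inv k.fib _ i.2, fun X => ?_, by norm_num,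
    AFc_pos hs k.den k.c0, hμ, ?_, ?_, fun x => ?_⟩
  · refine Set.Finite.of_finite_image (f := Subtype.val)
      ((fin_q k.inv k.fib (k.tail K σ τ hG).1 X).subset ?_) Subtype.val_injective.injOn
    rintro l ⟨i, hi, rfl⟩
    exact ⟨i.2, hi⟩
  · have h1 := (FFc_props hs k.den k.c0).1
    refine h1.congr fun x => (hF x).symm
  · have h1 := tot_q k hG
    refine h1.congr fun X => ?_
    have h2 := hcard X fun _ => True
    simp only [and_true] at h2
    rw [h2]
  · have h1 := law_q k hG x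
    rw [← hF] at h1
    refine h1.congr fun X => ?_
    have h2 := hcard X fun q => hJ (jq q) ≤ 1 / 6 * Real.log (NFq q) + x
    rw [← h2]
    congr 3
    ext i
    constructor
    · rintro ⟨h3, h4⟩
      exact ⟨h3, by linarith⟩
    · rintro ⟨h3, h4⟩
      exact ⟨h3, by linarith⟩

/-- the final theorem for the classes -/
theorem final (k : Pk) {σ τ : K →+* ℝ} (hG : Gold K σ τ) :
    Summable (wt K) ∧ 0 < ∑' i : Ty K, wt K i ∧
    ∃ μ : Measure ℝ, IsProbabilityMeasure μ ∧ (∀ x, μ.real (Set.Iic x) = FFc K x) ∧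
      Continuous (FFc K) ∧
      ∀ n : ℕ,
        Tendsto (fun X : ℝ => ((Tu Okq (NFq (K := K)) (n + 1) X fun _ => True).ncard : ℝ) /
          (X ^ ((2 : ℝ) / 3) * Real.log X ^ n)) atTop
          (𝓝 (AFc K ^ (n + 1) * (2 / 3 : ℝ) ^ n / n.factorial)) ∧
        (∀ x : ℝ, Tendsto (fun X : ℝ => ((Tu Okq (NFq (K := K)) (n + 1) X fun q =>
          ∑ k, hJ (jq (q k)) ≤ 1 / 6 * Real.log (∏ k, NFq (q k)) + x).ncard : ℝ) /
            ((Tu Okq (NFq (K := K)) (n + 1) X fun _ => True).ncard : ℝ)) atTop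
              (𝓝 (Gn μ (n + 1) x)) ∧ Gn μ (n + 1) x < 1) ∧
        ∀ κ c : ℝ,
          (1 / 6 < κ → Tendsto (fun X : ℝ => ((Tu Okq (NFq (K := K)) (n + 1) X fun q =>
            ∑ k, hJ (jq (q k)) ≤ κ * Real.log (∏ k, NFq (q k)) + c).ncard : ℝ) /
              ((Tu Okq (NFq (K := K)) (n + 1) X fun _ => True).ncard : ℝ)) atTop (𝓝 1)) ∧
          (κ < 1 / 6 → Tendsto (fun X : ℝ => ((Tu Okq (NFq (K := K)) (n + 1) X fun q =>
            ∑ k, hJ (jq (q k)) ≤ κ * Real.log (∏ k, NFq (q k)) + c).ncard : ℝ) /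
              ((Tu Okq (NFq (K := K)) (n + 1) X fun _ => True).ncard : ℝ)) atTop (𝓝 0)) := by
  have hs := sum_wt k hG
  obtain ⟨f1, f2, f3, f4, f5⟩ := FFc_props hs k.den k.c0
  obtain ⟨μ, hμ, hμF⟩ := exists_mu f1 f2 f4 f5
  have hfam := fam_q k hG hμ hμF
  refine ⟨hs, wt_tsum_pos hs k.den k.c0, μ, hμ, hμF, f1, fun n => ?_⟩
  obtain ⟨a1, a2, a3⟩ := gen_final (Ok := Okq) (N := NFq (K := K)) (H := fun q => hJ (jq q)) hfam n
  exact ⟨a1, fun x => ⟨a2 x, Gn_lt (fun y => by rw [hμF]; exact f3 y) n x⟩, a3⟩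

end Pool.Agent.P8H82.FF
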