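import Mathlib
import Pool.Agent.P8H82.FF.Stm2
import Pool.Agent.P8H82.FF.Condx

set_option autoImplicit false

/-!
# Project FF, package HGTX
-/

namespace Pool.Agent.P8H82.FF.W

open NumberField IsDedekindDomain
open Pool.Agent.P8H82.JG (Gold Triple height)
open Pool.Agent.P8H82.WS (lamT)
open Pool.Agent.TH876.Loc (hgt)
open Pool.Agent.H691R3 (fv fv_na)

variable {K : Type} [Field K] [NumberField K]

/-- products over the embeddings and sums over the places -/
theorem log_prod_emb (G : InfinitePlace K → ℝ) (hG : ∀ w, 0 < G w) :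
    Real.log (∏ φ : K →+* ℂ, G (InfinitePlace.mk φ)) = ∑ w : InfinitePlace K,
      (w.mult : ℝ) * Real.log (G w) := by
  classical
  rw [Real.log_prod fun φ _ => (hG _).ne']
  rw [← Finset.sum_fiberwise (s := (Finset.univ : Finset (K →+* ℂ)))
    (g := fun φ => InfinitePlace.mk φ)]
  refine Finset.sum_congr rfl fun w _ => ?_
  have h1 : ∑ φ ∈ (Finset.univ : Finset (K →+* ℂ)) with InfinitePlace.mk φ = w,
      Real.log (G (InfinitePlace.mk φ)) =
      ∑ φ ∈ (Finset.univ : Finset (K →+* ℂ)) with InfinitePlace.mk φ = w, Real.log (G w) := by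
    refine Finset.sum_congr rfl fun φ hφ => ?_
    rw [Finset.mem_filter] at hφ
    rw [hφ.2]
  rw [h1, Finset.sum_const, nsmul_eq_mul, InfinitePlace.card_filter_mk_eq]

theorem hgtx : S_HGTX := by
  classical
  intro K _ _ σ τ hG t ht
  obtain ⟨ha, hb, hc, hs⟩ := Pool.Agent.P8H82.FF.C52.tr_ne ht
  obtain ⟨x, hx⟩ : ∃ x : Fin 3 → K, x = ![(t.1 : K), (t.2.2 : K), (t.2.1 : K)] := ⟨_, rfl⟩
  have x0 : x 0 = (t.1 : K) := by rw [hx]; rfl
  have x1 : x 1 = (t.2.2 : K) := by rw [hx]; rfl
  have x2 : x 2 = (t.2.1 : K) := by rw [hx]; rfl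
  have h := Pool.Agent.Y728.AK.height3_eq (x := x)
    (by rw [x0, x1, x2]; linear_combination hs)
    (by rw [x0, x1, x2]; exact mul_ne_zero (mul_ne_zero ha hc) hb)
  have hl : -(lamT t) = x 0 / x 1 := by
    rw [x0, x1]
    unfold lamT
    ring
  rw [hl, ← h]
  unfold Pool.Agent.Y728.AK.height3
  have hd : (Module.finrank ℚ K : ℝ) ≠ 0 := by
    exact_mod_cast (Module.finrank_pos (R := ℚ) (M := K)).ne'
  rw [mul_div_cancel₀ _ hd, x0, x1, x2]
  have hfin : ∑ᶠ v : HeightOneSpectrum (𝓞 K), Real.log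
      (max (FinitePlace.mk v (t.1 : K)) (max (FinitePlace.mk v (t.2.2 : K))
        (FinitePlace.mk v (t.2.1 : K)))) = 0 := by
    refine finsum_eq_zero_of_forall_eq_zero fun v => ?_
    have hle : ∀ y : 𝓞 K, FinitePlace.mk v (y : K) ≤ 1 := fun y =>
      FinitePlace.norm_le_one K v y
    have hone : ∀ y : 𝓞 K, y ∉ v.asIdeal → FinitePlace.mk v (y : K) = 1 := fun y hy =>
      (FinitePlace.norm_eq_one_iff_notMem K v y).2 hy
    have hex : t.1 ∉ v.asIdeal ∨ t.2.2 ∉ v.asIdeal ∨ t.2.1 ∉ v.asIdeal := by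
      by_contra hcon
      rw [not_or, not_or, not_not, not_not, not_not] at hcon
      obtain ⟨h1, h2, h3⟩ := hcon
      apply v.isPrime.ne_top
      rw [eq_top_iff, ← ht.cop, Ideal.span_le]
      rintro y hy
      simp only [Set.mem_insert_iff, Set.mem_singleton_iff] at hy
      rcases hy with rfl | rfl | rfl
      · exact h1
      · exact h3
      · exact h2
    have hm : max (FinitePlace.mk v (t.1 : K)) (max (FinitePlace.mk v (t.2.2 : K))
        (FinitePlace.mk v (t.2.1 : K))) = 1 := by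
      refine le_antisymm (max_le (hle _) (max_le (hle _) (hle _))) ?_
      rcases hex with h1 | h1 | h1
      · exact le_max_of_le_left (hone _ h1).ge
      · exact le_max_of_le_right (le_max_of_le_left (hone _ h1).ge)
      · exact le_max_of_le_right (le_max_of_le_right (hone _ h1).ge)
    rw [hm, Real.log_one]
  rw [hfin, add_zero]
  have hpos : ∀ w : InfinitePlace K, 0 < max (w (t.1 : K)) (max (w (t.2.2 : K)) (w (t.2.1 : K))) :=
    fun w => lt_max_of_lt_left (w.pos_iff.2 ha)
  rw [← log_prod_emb (fun w => max (w (t.1 : K)) (max (w (t.2.2 : K)) (w (t.2.1 : K)))) hpos]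
  unfold height
  congr 1
  refine Finset.prod_congr rfl fun φ _ => ?_
  simp only [InfinitePlace.apply]
  rw [max_comm ‖φ (t.2.2 : K)‖]

end Pool.Agent.P8H82.FF.W
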