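import Mathlib
import Pool.Agent.P8H82.FF.Stm
import Pool.Agent.P8H56.JG.Rad

set_option autoImplicit false

/-!
# Project FF, package WEX
-/

namespace Pool.Agent.P8H82.FF.W

open NumberField IsDedekindDomain
open Pool.Agent.P8H82.JG (Gold Triple Rep rad nP ord radI Cnd S_RAD)
open Pool.Agent.P8H56.JG (ord_mul ord_prod ord_ext mem_pow_iff ord_radI radI_ne)

theorem wex : S_WEX := by
  classical
  intro K _ _ T t ht
  obtain ⟨x, hx⟩ : ∃ x : 𝓞 K, x = t.1 * t.2.1 * t.2.2 := ⟨_, rfl⟩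
  have hx0 : x ≠ 0 := by
    rw [hx]
    exact ht.ne
  have hspan : Ideal.span {x} ≠ (⊥ : Ideal (𝓞 K)) := by simpa using hx0
  obtain ⟨-, hrad1, ⟨w0, hw0, hr⟩, -, r5⟩ := Pool.Agent.P8H56.JG.rad_main K t ht
  have hnorm := (r5 w0 hr).2
  unfold Pool.Agent.P8H82.JG.Rep at hr
  rw [← hx] at hr hnorm ⊢
  have hord : ∀ P : HeightOneSpectrum (𝓞 K),
      ord P (Ideal.span {x}) = ord P w0 + if x ∈ P.asIdeal then 1 else 0 := by
    intro P
    rw [← hr, ord_mul P hw0 (radI_ne hx0), ord_radI P hx0]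
  have hmem : ∀ P : HeightOneSpectrum (𝓞 K), x ∈ P.asIdeal ↔ 1 ≤ ord P (Ideal.span {x}) := by
    intro P
    rw [← mem_pow_iff P hx0, pow_one]
  have hneg : t.1 * t.2.1 * (t.1 + t.2.1) = -x := by
    have : t.2.2 = -(t.1 + t.2.1) := by linear_combination ht.sum
    rw [hx, this]
    ring
  have hcop : ∀ P : HeightOneSpectrum (𝓞 K), ¬ (t.1 ∈ P.asIdeal ∧ t.2.1 ∈ P.asIdeal) := by
    rintro P ⟨h1, h2⟩
    have h3 : t.2.2 ∈ P.asIdeal := by
      have : t.2.2 = -(t.1 + t.2.1) := by linear_combination ht.sum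
      rw [this]
      exact neg_mem (add_mem h1 h2)
    apply P.isPrime.ne_top
    rw [eq_top_iff, ← ht.cop, Ideal.span_le]
    rintro y hy
    simp only [Set.mem_insert_iff, Set.mem_singleton_iff] at hy
    rcases hy with rfl | rfl | rfl
    · exact h1
    · exact h2
    · exact h3
  -- the conditions in terms of the exponents
  have hCX : ∀ (w : Ideal (𝓞 K)), (∀ P, CX T P (ord P w) t.1 t.2.1) ↔
      ∀ P : HeightOneSpectrum (𝓞 K), (P ∈ T → ord P w = ord P (Ideal.span {x})) ∧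
        (P ∉ T → ord P w = ord P (Ideal.span {x}) - 1) := by
    intro w
    refine forall_congr' fun P => ?_
    unfold CX Ex Cnd
    simp only [hneg, neg_mem_iff, mem_pow_iff P hx0]
    have hc := hcop P
    constructor
    · rintro ⟨h1, h2⟩
      refine ⟨fun hP => ?_, fun hP => ?_⟩
      · obtain ⟨-, k1, k2⟩ := h1 hP
        omega
      · obtain ⟨-, k1, k2⟩ := h2 hP
        by_cases h0 : ord P w = 0
        · omega
        · have := k2 h0
          omega
    · rintro ⟨h1, h2⟩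
      refine ⟨fun hP => ⟨hc, ?_, ?_⟩, fun hP => ⟨hc, ?_, fun h0 => ?_⟩⟩
      · have := h1 hP
        omega
      · have := h1 hP
        omega
      · have := h2 hP
        omega
      · have := h2 hP
        omega
  obtain ⟨s, hs⟩ : ∃ s : Finset (HeightOneSpectrum (𝓞 K)),
      s = T.filter fun P => x ∈ P.asIdeal := ⟨_, rfl⟩
  have hp0 : (∏ Q ∈ s, Q.asIdeal) ≠ (⊥ : Ideal (𝓞 K)) :=
    Finset.prod_ne_zero_iff.2 fun Q _ => Q.ne_bot
  have hw : w0 * ∏ Q ∈ s, Q.asIdeal ≠ ⊥ := mul_ne_zero hw0 hp0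
  have hordw : ∀ P : HeightOneSpectrum (𝓞 K), ord P (w0 * ∏ Q ∈ s, Q.asIdeal) =
      ord P w0 + if P ∈ s then 1 else 0 := by
    intro P
    rw [ord_mul P hw0 hp0, (ord_prod P s).2]
  have hgood : ∀ P : HeightOneSpectrum (𝓞 K),
      (P ∈ T → ord P (w0 * ∏ Q ∈ s, Q.asIdeal) = ord P (Ideal.span {x})) ∧
        (P ∉ T → ord P (w0 * ∏ Q ∈ s, Q.asIdeal) = ord P (Ideal.span {x}) - 1) := by
    intro P
    have h1 := hord P
    have h2 := hordw P
    have h3 := hmem P
    refine ⟨fun hP => ?_, fun hP => ?_⟩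
    · have h4 : P ∈ s ↔ x ∈ P.asIdeal := by
        rw [hs, Finset.mem_filter]
        exact ⟨fun h => h.2, fun h => ⟨hP, h⟩⟩
      rw [h2, h1]
      simp only [h4]
    · have h4 : P ∉ s := by
        rw [hs, Finset.mem_filter]
        exact fun h => hP h.1
      rw [if_neg h4] at h2
      split_ifs at h1 with h5
      · omega
      · have h6 : ¬ 1 ≤ ord P (Ideal.span {x}) := fun h => h5 (h3.2 h)
        omega
  refine ⟨w0 * ∏ Q ∈ s, Q.asIdeal, hw, (hCX _).2 hgood, ?_, ?_⟩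
  · have e1 : (Ideal.absNorm (w0 * ∏ Q ∈ s, Q.asIdeal) : ℝ) =
        (Ideal.absNorm w0 : ℝ) * ∏ Q ∈ s, nP Q := by
      rw [map_mul, map_prod]
      push_cast
      rfl
    have hone : ∀ P : HeightOneSpectrum (𝓞 K), 1 ≤ nP P := fun P =>
      Pool.Agent.P8H56.JG.one_le_absNorm P
    have e2 : ∏ Q ∈ s, nP Q ≤ ∏ Q ∈ T, nP Q := by
      rw [hs]
      rw [← Finset.prod_sdiff (Finset.filter_subset (fun P => x ∈ P.asIdeal) T)]
      refine le_mul_of_one_le_left (Finset.prod_nonneg fun P _ => le_trans zero_le_one (hone P)) ?_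
      exact Finset.prod_induction _ (fun y : ℝ => 1 ≤ y)
        (fun a b ha hb => one_le_mul_of_one_le_of_one_le ha hb) le_rfl fun P _ => hone P
    rw [e1, mul_right_comm, hnorm]
    exact mul_le_mul_of_nonneg_left e2 (Nat.cast_nonneg _)
  · intro w' hw' hc'
    refine ord_ext hw' hw fun P => ?_
    have h1 := (hCX w').1 hc' P
    have h2 := hgood P
    by_cases hP : P ∈ T
    · rw [h1.1 hP, h2.1 hP]
    · rw [h1.2 hP, h2.2 hP]

end Pool.Agent.P8H82.FF.W
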