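import Mathlib
import Pool.Agent.P8H82.FF.Fin
import Pool.Agent.P8H82.JG.Main
import Pool.Agent.P8H82.WS.Pkg
import Pool.Agent.P8H45.FF.Abs
import Pool.Agent.P8H71.FF.Asyx
import Pool.Agent.P8H88.FF.Asz
import Pool.Agent.P8H88.FF.Den
import Pool.Agent.P8H53.FF.Eulx
import Pool.Agent.P8H21.FF.Fib
import Pool.Agent.P8H4.FF.Fint
import Pool.Agent.P8H53.FF.Gpts
import Pool.Agent.P8H52.FF.Htx
import Pool.Agent.P8H80.FF.Inv
import Pool.Agent.P8H75.FF.Locx
import Pool.Agent.P8H21.FF.Tailx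
import Pool.Agent.P8H57.FF.Twc
import Pool.Agent.P8H57.FF.Twe
import Pool.Agent.P8H57.FF.Twg
import Pool.Agent.P8H86.FF.Six
import Pool.Agent.P8H82.FF.Condx
import Pool.Agent.P8H82.FF.Wex
import Pool.Agent.P8H82.FF.Hgtx

set_option autoImplicit false

/-!
# Project FF: all the packages
-/

namespace Pool.Agent.P8H82.FF

open NumberField IsDedekindDomain MeasureTheory Filter Topology
open Pool.Agent.P8H82.JG (Gold Triple S_EXI S_CPX S_NRM S_INT S_CONE S_BOX S_SM S_TL S_C0 S_KKJ S_EQ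
  S_REG S_VOL S_LOC S_LP S_RAD S_HT S_BETA shp)
open Pool.Agent.P8H82.WS (S_LAM lamT jL s_lam s_jt s_two s_ipl s_qq IsPz ex_unique)
open Pool.Agent.Y729.AH (Iso cl)

variable {K : Type} [Field K] [NumberField K]

/-- the two real embeddings -/
theorem gold (hK : Module.finrank ℚ K = 2) (h5 : ∃ s : K, s ^ 2 = 5) :
    ∃ σ τ : K →+* ℝ, Gold K σ τ := by
  obtain ⟨σ, τ, h⟩ := Pool.Agent.P8H52.JG.exi K hK h5
  exact ⟨σ, τ, hK, h5, h⟩

theorem s_six : S_SIX := Pool.Agent.P8H86.FF.six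

theorem s_wex : S_WEX := Pool.Agent.P8H82.FF.W.wex

theorem s_hgtx : S_HGTX := Pool.Agent.P8H82.FF.W.hgtx

theorem s_condx : S_CONDX := Pool.Agent.P8H82.FF.C52.condx

theorem pk : Pk := by
  have hCPX : S_CPX := Pool.Agent.P8H52.JG.cpx
  have hNRM : S_NRM := Pool.Agent.P8H52.JG.nrm
  have hINT : S_INT := Pool.Agent.P8H52.JG.int_thm
  have hCONE : S_CONE := Pool.Agent.P8H52.JG.cone
  have hBOX : S_BOX := Pool.Agent.P8H52.JG.box
  have hSM : S_SM := Pool.Agent.P8H60.JG.sm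
  have hTL : S_TL := Pool.Agent.P8H52.JG.tl hSM
  have hC0 : S_C0 := Pool.Agent.P8H60.JG.c0_thm hSM
  have hKKJ : S_KKJ := Pool.Agent.P8H60.JG.kkj
  have hEQ : S_EQ := Pool.Agent.P8H75.JG.eq_cosets
  have hREG : S_REG := Pool.Agent.P8H75.JG.reg
  have hVOL : S_VOL := Pool.Agent.P8H75.JG.vol
  have hLOC : S_LOC := Pool.Agent.P8H86.JG.loc
  have hLP : S_LP := Pool.Agent.P8H86.JG.lp hEQ hINT
  have hRAD : S_RAD := Pool.Agent.P8H56.JG.rad_main
  have hHT : S_HT := Pool.Agent.P8H56.JG.ht hNRM hCPX hRAD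
  have hB : S_BETA := Pool.Agent.P8H56.JG.beta_main
  have hDN : S_DENX := Pool.Agent.P8H88.FF.denx hC0
  have hASZ : S_ASZX := Pool.Agent.P8H88.FF.aszx hLP hLOC Pool.Agent.P8H75.FF.locx
  exact
    { abs := Pool.Agent.P8H45.FF.abs hB hKKJ
      den := hDN
      wex := s_wex
      fin := Pool.Agent.P8H4.FF.fint
      tail := Pool.Agent.P8H21.FF.tailx Pool.Agent.P8H21.FF.fib s_hgtx s_lam hHT hRAD
      asy := Pool.Agent.P8H71.FF.asyx hBOX hASZ hTL hDN
      reg := hREG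
      vol := hVOL
      gpt := Pool.Agent.P8H53.FF.gpts hNRM hCONE s_lam
      lam := s_lam
      twc := Pool.Agent.P8H57.FF.twc Pool.Agent.P8H57.FF.twg Pool.Agent.P8H57.FF.twe
      cnd := s_condx
      two := s_two
      htx := Pool.Agent.P8H52.FF.htx
      ipl := s_ipl
      jt := s_jt
      qq := s_qq
      c0 := hC0
      inv := Pool.Agent.P8H80.FF.inv
      fib := Pool.Agent.P8H21.FF.fib
      six := s_six
      eul := Pool.Agent.P8H53.FF.eulx hC0 }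

/-- the periods -/
theorem per_q (k : Pk) (hK : Module.finrank ℚ K = 2) (h5 : ∃ s : K, s ^ 2 = 5) {σ τ : K →+* ℝ}
    (hG : Gold K σ τ) {q : Iso K} (hq : Okq q)
    (w : InfinitePlace K) : ∃! z, IsPz (w.embedding (jq q)) z := by
  classical
  obtain ⟨p, hp, rfl⟩ := exi_pair k.inv k.fib q hq
  rw [(Okq_cl k.inv p hp).2.2]
  obtain ⟨-, a2, -⟩ := s_lam K hK h5
  obtain ⟨t, ht, hl⟩ := a2 p.1 hp.1 hp.2
  rw [← hl]
  obtain ⟨s1, s2, s3⟩ := (s_jt K t ht).2 σ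
  obtain ⟨t1, t2, t3⟩ := (s_jt K t ht).2 τ
  have h := s_ipl K σ τ hG (fun z => if ∃! y, IsPz z y then 0 else 1) (jL (lamT t))
  rw [s3, t3, if_pos (ex_unique (Pool.Agent.P8H78.WS.jr_ge s1 s2)),
    if_pos (ex_unique (Pool.Agent.P8H78.WS.jr_ge t1 t2)), add_zero] at h
  have h0 : ∀ w ∈ (Finset.univ : Finset (InfinitePlace K)), (0 : ℝ) ≤ (w.mult : ℝ) *
      (if ∃! y, IsPz (w.embedding (jL (lamT t))) y then 0 else 1) := by
    intro w _
    refine mul_nonneg (Nat.cast_nonneg _) ?_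
    split_ifs <;> norm_num
  have h3 := (Finset.sum_eq_zero_iff_of_nonneg h0).1 h w (Finset.mem_univ w)
  by_contra hn
  rw [if_neg hn, mul_one] at h3
  exact w.mult_ne_zero (by exact_mod_cast h3)

end Pool.Agent.P8H82.FF
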